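import Pool.Agent.H24.POG.Dat

/-!
# The first arrangement is strictly plus-one generated
-/

open MvPolynomial

universe u

namespace H24POG

variable {K : Type u} [Field K]

theorem ln_hom (a b : K) : (ln a b).IsHomogeneous 1 := by
  refine IsHomogeneous.add ?_ ?_
  · exact (isHomogeneous_C_mul_X a 1)
  · exact (isHomogeneous_C_mul_X b 2)

theorem X_add_ln_hom (a b : K) : (X 0 + ln a b : S K).IsHomogeneous 1 :=
  (isHomogeneous_X K 0).add (ln_hom a b)

namespace PData
variable (P : PData K)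

theorem Q_hom : P.Q.IsHomogeneous 12 := by
  have := IsHomogeneous.prod Finset.univ (fun s => ln (P.u s) (P.v s)) (fun _ => 1)
    (fun s _ => ln_hom _ _)
  rw [Finset.sum_const, Finset.card_univ, Fintype.card_fin, smul_eq_mul, mul_one] at this
  exact this

theorem R_hom : P.R.IsHomogeneous 6 := by
  have := IsHomogeneous.prod Finset.univ (fun i => X 0 + P.c i) (fun _ => 1)
    (fun i _ => X_add_ln_hom _ _)
  rw [Finset.sum_const, Finset.card_univ, Fintype.card_fin, smul_eq_mul, mul_one] at this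
  exact this

/-- Homogeneous lifts. -/
theorem N_hom {p w : S K} {m : ℕ} (hp : p.IsHomogeneous m) (h : P.N p w) :
    P.N p (homogeneousComponent (m + 12) w) := by
  intro i
  obtain ⟨q, hq⟩ := h i
  have h1 : (C (P.a i) * (P.Q * p)).IsHomogeneous (m + 12) := by
    have := (P.Q_hom.mul hp).C_mul (P.a i)
    rwa [add_comm] at this
  have h2 : homogeneousComponent (m + 12) (w + C (P.a i) * (P.Q * p)) =
      homogeneousComponent (m + 12) w + C (P.a i) * (P.Q * p) := by
    rw [map_add, homogeneousComponent_eq_self h1]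
  rw [← h2, hq, show m + 12 = m + 11 + 1 from rfl,
    comp_mul (show (X 0 + P.c i).IsHomogeneous 1 from X_add_ln_hom _ _)]
  exact Dvd.intro _ rfl

end PData

/-- The cubic form. -/
noncomputable def gam (K : Type u) [Field K] : S K := ln 1 0 * (ln 1 1 * ln 1 (-1))

theorem gam_hom : (gam K).IsHomogeneous 3 :=
  (ln_hom 1 0).mul ((ln_hom 1 1).mul (ln_hom 1 (-1)))

theorem gam_ZF : ZF (gam K) := (ZF.ln _ _).mul ((ZF.ln _ _).mul (ZF.ln _ _))

theorem gam_ne : gam K ≠ 0 := mul_ne_zero (ln_ne_zero (Or.inl one_ne_zero))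
  (mul_ne_zero (ln_ne_zero (Or.inl one_ne_zero)) (ln_ne_zero (Or.inl one_ne_zero)))

/-- If `m` divides `ev c p` and `c` then it divides `ev 0 p`. -/
theorem dvd_ev_zero {m c p : S K} (h1 : m ∣ ev c p) (h2 : m ∣ c) : m ∣ ev 0 p := by
  have h3 : m ∣ ev c p - ev 0 p := by
    refine dvd_trans ?_ (ev_sub_dvd c 0 p)
    rwa [sub_zero]
  have : ev 0 p = ev c p - (ev c p - ev 0 p) := by ring
  rw [this]
  exact dvd_sub h1 h3

/-- The hypotheses on the first arrangement. -/
structure PData.IsA (P : PData K) : Prop where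
  two : (2 : K) ≠ 0
  b0 : P.b 0 = 0
  b1 : P.b 1 = 0
  b2 : P.b 2 = P.a 2
  b3 : P.b 3 = P.a 3
  b4 : P.b 4 = -P.a 4
  b5 : P.b 5 = -P.a 5

namespace PData
variable {P : PData K} (hP : P.IsA)
include hP

theorem IsA.c0 : P.c 0 = C (P.a 0) * ln 1 0 := by rw [ln_smul, mul_one, mul_zero, c, hP.b0]
theorem IsA.c1 : P.c 1 = C (P.a 1) * ln 1 0 := by rw [ln_smul, mul_one, mul_zero, c, hP.b1]
theorem IsA.c2 : P.c 2 = C (P.a 2) * ln 1 1 := by rw [ln_smul, mul_one, c, hP.b2]
theorem IsA.c3 : P.c 3 = C (P.a 3) * ln 1 1 := by rw [ln_smul, mul_one, c, hP.b3]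
theorem IsA.c4 : P.c 4 = C (P.a 4) * ln 1 (-1) := by
  rw [ln_smul, mul_one, mul_neg, mul_one, c, hP.b4]
theorem IsA.c5 : P.c 5 = C (P.a 5) * ln 1 (-1) := by
  rw [ln_smul, mul_one, mul_neg, mul_one, c, hP.b5]

/-- The common factor of the forms of an uncovered pair. -/
theorem IsA.unc (i j : Fin 6) (hij : i ≠ j) (h : Unc i j) : ∃ m : S K,
    P.c i = C (P.a i) * m ∧ P.c j = C (P.a j) * m ∧ m ∣ gam K := by
  have g1 : ln 1 0 ∣ gam K := Dvd.intro _ rfl
  have g2 : ln 1 1 ∣ gam K := ⟨ln 1 0 * ln 1 (-1), by rw [gam]; ring⟩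
  have g3 : ln 1 (-1) ∣ gam K := ⟨ln 1 0 * ln 1 1, by rw [gam]; ring⟩
  fin_cases i <;> fin_cases j <;> first
    | exact absurd rfl hij
    | exact absurd h (by decide)
    | exact ⟨_, hP.c0, hP.c1, g1⟩
    | exact ⟨_, hP.c1, hP.c0, g1⟩
    | exact ⟨_, hP.c2, hP.c3, g2⟩
    | exact ⟨_, hP.c3, hP.c2, g2⟩
    | exact ⟨_, hP.c4, hP.c5, g3⟩
    | exact ⟨_, hP.c5, hP.c4, g3⟩

theorem IsA.lift (p : S K) (hp : ∀ m : S K, m ∣ gam K → ∀ r : K, m ∣ ev (C r * m) p) :
    ∃ w, P.N p w := by
  apply P.N_lift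
  intro i j hij hu
  obtain ⟨m, h1, h2, h3⟩ := hP.unc i j hij hu
  have e : P.c i - P.c j = C (P.a i - P.a j) * m := by rw [h1, h2, C_sub]; ring
  have hun : IsUnit (C (P.a i - P.a j) : S K) := (isUnit_iff_ne_zero.2 (P.a_ne i j hij)).map C
  rw [e, hun.mul_left_dvd, h2]
  exact hp m h3 _

theorem IsA.exists_alpha : ∃ w, w.IsHomogeneous 13 ∧ P.N (X 0) w := by
  obtain ⟨w, hw⟩ := hP.lift (X 0) (by
    intro m _ r
    rw [ev_X0]
    exact (Dvd.intro_left _ rfl : m ∣ C r * m).neg_right)
  exact ⟨homogeneousComponent (1 + 12) w, homogeneousComponent_isHomogeneous _ _,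
    P.N_hom (isHomogeneous_X K 0) hw⟩

theorem IsA.exists_gamma : ∃ w, w.IsHomogeneous 15 ∧ P.N (gam K) w := by
  obtain ⟨w, hw⟩ := hP.lift (gam K) (by
    intro m hm r
    rw [gam_ZF]
    exact hm)
  exact ⟨homogeneousComponent (3 + 12) w, homogeneousComponent_isHomogeneous _ _,
    P.N_hom gam_hom hw⟩

theorem IsA.dec {p w : S K} (h : P.N p w) : ∃ p1 p2, p = X 0 * p1 + gam K * p2 := by
  have key : ∀ i j : Fin 6, i ≠ j → Unc i j → ∀ m : S K, P.c i = C (P.a i) * m →
      P.c j = C (P.a j) * m → m ∣ ev 0 p := by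
    intro i j hij hu m h1 h2
    have h3 := P.N_unc h hij hu
    have e : P.c i - P.c j = C (P.a i - P.a j) * m := by rw [h1, h2, C_sub]; ring
    have hun : IsUnit (C (P.a i - P.a j) : S K) := (isUnit_iff_ne_zero.2 (P.a_ne i j hij)).map C
    rw [e, hun.mul_left_dvd] at h3
    exact dvd_ev_zero h3 (by rw [h2]; exact Dvd.intro_left _ rfl)
  have d1 : ln 1 0 ∣ ev 0 p := key 0 1 (by decide) (by decide) _ hP.c0 hP.c1
  have d2 : ln 1 1 ∣ ev 0 p := key 2 3 (by decide) (by decide) _ hP.c2 hP.c3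
  have d3 : ln 1 (-1) ∣ ev 0 p := key 4 5 (by decide) (by decide) _ hP.c4 hP.c5
  have r12 : IsRelPrime (ln (1 : K) 0) (ln 1 1) := ln_relPrime (by simp)
  have r13 : IsRelPrime (ln (1 : K) 0) (ln 1 (-1)) := ln_relPrime (by simp)
  have r23 : IsRelPrime (ln (1 : K) 1) (ln 1 (-1)) := ln_relPrime (by
    have := hP.two
    intro h0
    apply this
    linear_combination -h0)
  have hg : gam K ∣ ev 0 p := (r12.mul_right r13).mul_dvd d1 (r23.mul_dvd d2 d3)
  obtain ⟨p2, hp2⟩ := hg
  obtain ⟨p1, hp1⟩ := sub_ev_dvd 0 p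
  refine ⟨p1, p2, ?_⟩
  rw [← hp2]
  rw [add_zero] at hp1
  linear_combination hp1

/-- Strict plus-one generation, for a submodule given by `Mem`. -/
theorem IsA.resolution (M : Submodule (S K) (Fin 3 → S K)) (hM : ∀ θ, θ ∈ M ↔ P.Mem θ) :
    ∃ Z : Resolution M ![1, 6, 13] 15, Z.α ≠ 0 := by
  obtain ⟨wa, ha1, ha2⟩ := hP.exists_alpha
  obtain ⟨wc, hc1, hc2⟩ := hP.exists_gamma
  have hrel : P.N 0 (gam K * wa - X 0 * wc) := by
    have := (ha2.mul (gam K)).sub (hc2.mul (X 0))
    have e : gam K * X 0 - X 0 * gam K = 0 := by ring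
    rwa [e] at this
  obtain ⟨v0, hv0⟩ := P.N_zero hrel
  have hhom : (gam K * wa - X 0 * wc).IsHomogeneous 16 := by
    refine IsHomogeneous.sub ?_ ?_
    · exact gam_hom.mul ha1
    · exact (isHomogeneous_X K 0).mul hc1
  have hv : gam K * wa - X 0 * wc = P.R * homogeneousComponent 10 v0 := by
    have h1 := comp_mul P.R_hom 10 (p := v0)
    rw [← hv0, homogeneousComponent_eq_self hhom] at h1
    exact h1
  set v := homogeneousComponent 10 v0 with hvdef
  have hvh : v.IsHomogeneous 10 := homogeneousComponent_isHomogeneous _ _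
  have hspan : Submodule.span (S K) (insert ![wc, P.Q * gam K, 0]
      (Set.range ![![X 0, X 1, X 2], ![P.R, 0, 0], ![wa, P.Q * X 0, 0]])) = M := by
    apply le_antisymm
    · rw [Submodule.span_le]
      rintro θ (rfl | ⟨i, rfl⟩)
      · show _ ∈ M
        rw [hM, P.mem_iff]
        exact ⟨0, gam K, wc, by simp, by simp, by simp, hc2⟩
      · show _ ∈ M
        rw [hM, P.mem_iff]
        fin_cases i
        · exact ⟨1, 0, 0, by simp, by simp, by simp, fun i => by simp⟩
        · refine ⟨0, 0, P.R, by simp, by simp, by simp, fun i => ?_⟩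
          rw [mul_zero, mul_zero, add_zero]
          exact Finset.dvd_prod_of_mem _ (Finset.mem_univ i)
        · exact ⟨0, X 0, wa, by simp, by simp, by simp, ha2⟩
    · intro θ hθ
      rw [hM, P.mem_iff] at hθ
      obtain ⟨g, p, w, h0, h1, h2, hN⟩ := hθ
      obtain ⟨p1, p2, hp⟩ := hP.dec hN
      have hz : P.N 0 (w - p1 * wa - p2 * wc) := by
        have := (hN.sub (ha2.mul p1)).sub (hc2.mul p2)
        have e : p - p1 * X 0 - p2 * gam K = 0 := by rw [hp]; ring
        rwa [e] at this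
      obtain ⟨t, ht⟩ := P.N_zero hz
      have hθ' : θ = p2 • ![wc, P.Q * gam K, 0] + (g • ![X 0, X 1, X 2] +
          (t • ![P.R, 0, 0] + p1 • ![wa, P.Q * X 0, 0])) := by
        funext l
        fin_cases l
        · show θ 0 = p2 * wc + (g * X 0 + (t * P.R + p1 * wa))
          rw [h0]; linear_combination ht
        · show θ 1 = p2 * (P.Q * gam K) + (g * X 1 + (t * 0 + p1 * (P.Q * X 0)))
          rw [h1, hp]; ring
        · show θ 2 = p2 * 0 + (g * X 2 + (t * 0 + p1 * 0))
          rw [h2]; ring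
      rw [hθ']
      have hm : ∀ i, (![![X 0, X 1, X 2], ![P.R, 0, 0], ![wa, P.Q * X 0, 0]] :
          Fin 3 → Fin 3 → S K) i ∈ Submodule.span (S K) (insert ![wc, P.Q * gam K, 0]
          (Set.range ![![X 0, X 1, X 2], ![P.R, 0, 0], ![wa, P.Q * X 0, 0]])) :=
        fun i => Submodule.subset_span (Or.inr ⟨i, rfl⟩)
      refine Submodule.add_mem _ (Submodule.smul_mem _ _ (Submodule.subset_span (Or.inl rfl)))
        (Submodule.add_mem _ (Submodule.smul_mem _ _ (hm 0))
        (Submodule.add_mem _ (Submodule.smul_mem _ _ (hm 1)) (Submodule.smul_mem _ _ (hm 2))))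
  refine ⟨{ θ := ![![X 0, X 1, X 2], ![P.R, 0, 0], ![wa, P.Q * X 0, 0]]
            φ := ![wc, P.Q * gam K, 0]
            α := X 0
            f := ![0, v, -gam K]
            θ_hom := ?_
            φ_hom := ?_
            α_hom := isHomogeneous_X K 0
            f_hom := ?_
            minimal := ?_
            span := hspan
            injective := fun h => X_ne_zero 0 h.1
            exact := ?_ }, X_ne_zero 0⟩
  · intro i t
    fin_cases i
    · fin_cases t
      · exact isHomogeneous_X K 0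
      · exact isHomogeneous_X K 1
      · exact isHomogeneous_X K 2
    · fin_cases t
      · exact P.R_hom
      · exact isHomogeneous_zero _ _ _
      · exact isHomogeneous_zero _ _ _
    · fin_cases t
      · exact ha1
      · exact P.Q_hom.mul (isHomogeneous_X K 0)
      · exact isHomogeneous_zero _ _ _
  · intro t
    fin_cases t
    · exact hc1
    · exact P.Q_hom.mul gam_hom
    · exact isHomogeneous_zero _ _ _
  · intro i
    fin_cases i
    · exact Or.inl rfl
    · exact Or.inr ⟨10, rfl, hvh⟩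
    · exact Or.inr ⟨3, rfl, gam_hom.neg⟩
  · intro i
    fin_cases i
    · exact map_zero _
    · show constantCoeff v = 0
      rw [constantCoeff_eq]
      by_contra hne
      have := hvh hne
      simp at this
    · show constantCoeff (-gam K) = 0
      simp [gam, ln]
  · intro a g
    rw [Fin.sum_univ_three]
    constructor
    · intro h
      have e0 : a * wc + (g 0 * X 0 + g 1 * P.R + g 2 * wa) = 0 := congrFun h 0
      have e1 : a * (P.Q * gam K) + (g 0 * X 1 + g 1 * 0 + g 2 * (P.Q * X 0)) = 0 := congrFun h 1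
      have e2 : a * 0 + (g 0 * X 2 + g 1 * 0 + g 2 * 0) = 0 := congrFun h 2
      have hg0 : g 0 = 0 := by
        have : g 0 * X 2 = 0 := by linear_combination e2
        exact (mul_eq_zero.1 this).resolve_right (X_ne_zero 2)
      have h1 : a * gam K + g 2 * X 0 = 0 := by
        have : P.Q * (a * gam K + g 2 * X 0) = 0 := by
          rw [hg0] at e1; linear_combination e1
        exact (mul_eq_zero.1 this).resolve_left P.Q_ne
      have h2 : (X 0 : S K) ∣ a := by
        have h3 : (X 0 + ln 0 0 : S K) ∣ a * gam K := by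
          have : (X 0 + ln 0 0 : S K) = X 0 := by simp [ln]
          rw [this]
          exact ⟨-g 2, by linear_combination h1⟩
        rw [L_dvd_iff, map_mul, gam_ZF, mul_eq_zero] at h3
        have h4 := h3.resolve_right gam_ne
        rw [← L_dvd_iff] at h4
        have : (X 0 + ln 0 0 : S K) = X 0 := by simp [ln]
        rwa [this] at h4
      obtain ⟨h, hh⟩ := h2
      have hg2 : g 2 = -(h * gam K) := by
        have : X 0 * (g 2 + h * gam K) = 0 := by rw [hh] at h1; linear_combination h1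
        have := (mul_eq_zero.1 this).resolve_left (X_ne_zero 0)
        linear_combination this
      have hg1 : g 1 = h * v := by
        have : P.R * (g 1 - h * v) = 0 := by
          rw [hg0, hg2, hh] at e0
          linear_combination e0 + h * hv
        have := (mul_eq_zero.1 this).resolve_left P.R_ne
        linear_combination this
      refine ⟨h, by rw [hh]; ring, fun i => ?_⟩
      fin_cases i
      · show g 0 = h * 0
        rw [hg0, mul_zero]
      · exact hg1
      · show g 2 = h * (-gam K)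
        rw [hg2]; ring
    · rintro ⟨h, ha, hg⟩
      have hg0 : g 0 = h * 0 := hg 0
      have hg1 : g 1 = h * v := hg 1
      have hg2 : g 2 = h * (-gam K) := hg 2
      funext t
      fin_cases t
      · show a * wc + (g 0 * X 0 + g 1 * P.R + g 2 * wa) = 0
        rw [ha, hg0, hg1, hg2]; linear_combination -h * hv
      · show a * (P.Q * gam K) + (g 0 * X 1 + g 1 * 0 + g 2 * (P.Q * X 0)) = 0
        rw [ha, hg0, hg1, hg2]; ring
      · show a * 0 + (g 0 * X 2 + g 1 * 0 + g 2 * 0) = 0
        rw [hg0]; ring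

end PData

/-- The first arrangement is strictly plus-one generated. -/
theorem A_pog (K : Type u) [Field K] [CharZero K] :
    IsStrictPOG (mkArr K condA) ![1, 6, 13] 15 := by
  refine PData.IsA.resolution (P := PData.ofInt K condA) ?_ _ (mem_Dlog condA)
  refine ⟨two_ne_zero, ?_, ?_, ?_, ?_, ?_, ?_⟩
  · show ((bA 0 : ℤ) : K) = 0; simp [bA]
  · show ((bA 1 : ℤ) : K) = 0; simp [bA]
  · show ((bA 2 : ℤ) : K) = ((aA 2 : ℤ) : K); simp [bA, aA]
  · show ((bA 3 : ℤ) : K) = ((aA 3 : ℤ) : K); simp [bA, aA]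
  · show ((bA 4 : ℤ) : K) = -((aA 4 : ℤ) : K); simp [bA, aA]
  · show ((bA 5 : ℤ) : K) = -((aA 5 : ℤ) : K); simp [bA, aA]

end H24POG
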