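import Pool.Agent.H24.POG.A

/-!
# The second arrangement is not plus-one generated: it needs five generators
-/

open MvPolynomial

universe u

namespace H24POG

variable {K : Type u} [Field K]

/-- Restriction to the line spanned by `e`. -/
noncomputable def pt (e : Fin 3 → K) : S K →ₐ[K] Polynomial K :=
  aeval (fun t => Polynomial.C (e t) * Polynomial.X)

theorem pt_X (e : Fin 3 → K) (t : Fin 3) : pt e (X t) = Polynomial.C (e t) * Polynomial.X := by
  simp [pt]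

theorem pt_C (e : Fin 3 → K) (r : K) : pt e (C r) = Polynomial.C r := by
  rw [← algebraMap_eq, AlgHom.commutes]; rfl

theorem pt_ln (e : Fin 3 → K) (a b : K) :
    pt e (ln a b) = Polynomial.C (a * e 1 + b * e 2) * Polynomial.X := by
  rw [ln, map_add, map_mul, map_mul, pt_C, pt_C, pt_X, pt_X, Polynomial.C_add, Polynomial.C_mul,
    Polynomial.C_mul]
  ring

theorem pt_coeff_zero (e : Fin 3 → K) (p : S K) : (pt e p).coeff 0 = constantCoeff p := by
  induction p using MvPolynomial.induction_on with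
  | C r => rw [pt_C, Polynomial.coeff_C_zero, constantCoeff_C]
  | add p q hp hq => rw [map_add, Polynomial.coeff_add, hp, hq, map_add]
  | mul_X p t hp =>
    rw [map_mul, pt_X, map_mul, constantCoeff_X, mul_zero, ← mul_assoc,
      Polynomial.coeff_mul_X_zero]

theorem pt_coeff_one (p : S K) : ∃ l : Fin 3 → K, ∀ e : Fin 3 → K,
    (pt e p).coeff 1 = e 0 * l 0 + e 1 * l 1 + e 2 * l 2 := by
  induction p using MvPolynomial.induction_on with
  | C r =>
    refine ⟨0, fun e => ?_⟩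
    rw [pt_C, Polynomial.coeff_C]
    simp
  | add p q hp hq =>
    obtain ⟨l, hl⟩ := hp
    obtain ⟨m, hm⟩ := hq
    refine ⟨l + m, fun e => ?_⟩
    rw [map_add, Polynomial.coeff_add, hl, hm]
    simp only [Pi.add_apply]; ring
  | mul_X p t hp =>
    refine ⟨Pi.single t (constantCoeff p), fun e => ?_⟩
    rw [map_mul, pt_X, ← mul_assoc, Polynomial.coeff_mul_X, mul_comm, Polynomial.coeff_C_mul,
      pt_coeff_zero]
    fin_cases t <;> simp

theorem pt_ev (e : Fin 3 → K) (a b : K) (p : S K) :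
    pt e (ev (ln a b) p) = pt ![-(a * e 1 + b * e 2), e 1, e 2] p := by
  have h : (pt e).comp (ev (ln a b)) = pt ![-(a * e 1 + b * e 2), e 1, e 2] := by
    apply MvPolynomial.algHom_ext
    intro i
    rw [AlgHom.comp_apply]
    fin_cases i
    · show pt e (ev (ln a b) (X 0)) = pt _ (X 0)
      rw [ev_X0, map_neg, pt_ln, pt_X]
      simp
      ring
    · show pt e (ev (ln a b) (X 1)) = pt _ (X 1)
      rw [ev_X1, pt_X, pt_X]; rfl
    · show pt e (ev (ln a b) (X 2)) = pt _ (X 2)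
      rw [ev_X2, pt_X, pt_X]; rfl
  exact DFunLike.congr_fun h p

/-- Setting `X₂ = 0`. -/
noncomputable def sg (K : Type u) [Field K] : S K →ₐ[K] S K := aeval ![X 0, X 1, 0]

theorem sg_X0 : sg K (X 0) = X 0 := by simp [sg]
theorem sg_X1 : sg K (X 1) = X 1 := by simp [sg]
theorem sg_X2 : sg K (X 2) = 0 := by simp [sg]
theorem sg_C (r : K) : sg K (C r) = C r := by rw [← algebraMap_eq, AlgHom.commutes]
theorem sg_ln (a b : K) : sg K (ln a b) = ln a 0 := by
  simp only [ln, map_add, map_mul, sg_C, sg_X1, sg_X2, C_0, zero_mul, mul_zero]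

theorem pt_sg (p : S K) : pt ![1, 0, 0] (sg K p) = pt ![1, 0, 0] p := by
  have h : (pt ![1, 0, 0]).comp (sg K) = pt ![1, 0, 0] := by
    apply MvPolynomial.algHom_ext
    intro i
    rw [AlgHom.comp_apply]
    fin_cases i
    · show pt _ (sg K (X 0)) = pt _ (X 0)
      rw [sg_X0]
    · show pt _ (sg K (X 1)) = pt _ (X 1)
      rw [sg_X1]
    · show pt _ (sg K (X 2)) = pt _ (X 2)
      rw [sg_X2, pt_X, map_zero]; simp
  exact DFunLike.congr_fun h p

theorem coeff_mul_dvd {q r : Polynomial K} {n : ℕ} (h : Polynomial.X ^ n ∣ r) :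
    (q * r).coeff n = q.coeff 0 * r.coeff n := by
  obtain ⟨s, rfl⟩ := h
  have h1 : q * (Polynomial.X ^ n * s) = Polynomial.X ^ n * (q * s) := by ring
  rw [h1, Polynomial.coeff_X_pow_mul', Polynomial.coeff_X_pow_mul', if_pos le_rfl, if_pos le_rfl,
    Nat.sub_self, Polynomial.mul_coeff_zero]

/-- The hypotheses on the second arrangement. -/
structure PData.IsB (P : PData K) : Prop where
  two : (2 : K) ≠ 0
  b0 : P.b 0 = 0
  b1 : P.b 1 = 0
  b2 : P.b 2 = P.a 2
  b3 : P.b 3 = P.a 3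
  b4 : P.b 4 = 2 - P.a 4
  b5 : P.b 5 = 2 - P.a 5

namespace PData

theorem N_pt6 (P : PData K) {p w : S K} (h : P.N p w) :
    Polynomial.X ^ 6 ∣ pt ![1, 0, 0] w := by
  have hQ : sg K P.Q = C (∏ s, P.u s) * X 1 ^ 12 := by
    rw [Q, map_prod, map_prod]
    have : ∀ s ∈ (Finset.univ : Finset (Fin 12)), sg K (ln (P.u s) (P.v s)) =
        C (P.u s) * X 1 := by
      intro s _
      rw [sg_ln, ln, C_0, zero_mul, add_zero]
    rw [Finset.prod_congr rfl this, Finset.prod_mul_distrib, Finset.prod_const, Finset.card_univ,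
      Fintype.card_fin]
  have hF : ∏ i, (X 0 + ln (P.a i) 0 : S K) ∣
      X 0 * (C (∏ s, P.u s) * X 1 ^ 11) * sg K p - sg K w := by
    apply Finset.prod_dvd_of_isRelPrime
    · intro i _ j _ hij
      exact L_relPrime (Or.inl (sub_ne_zero.1 (P.a_ne i j hij)))
    · intro i _
      have h1 := map_dvd (sg K) (h i)
      rw [map_add, sg_X0, c, sg_ln, map_add, map_mul, sg_C, map_mul, hQ] at h1
      have e : X 0 * (C (∏ s, P.u s) * X 1 ^ 11) * sg K p - sg K w =
          (X 0 + ln (P.a i) 0) * ((C (∏ s, P.u s) * X 1 ^ 11) * sg K p) -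
          (sg K w + C (P.a i) * (C (∏ s, P.u s) * X 1 ^ 12 * sg K p)) := by
        rw [ln, C_0]; ring
      rw [e]
      exact dvd_sub (Dvd.intro _ rfl) h1
  have h2 := map_dvd (pt ![1, 0, 0]) hF
  rw [map_sub, pt_sg, map_mul, map_mul, map_mul, map_pow, pt_X, pt_X, map_prod] at h2
  have h3 : ∏ i, pt ![1, 0, 0] (X 0 + ln (P.a i) 0) = Polynomial.X ^ 6 := by
    have : ∀ i ∈ (Finset.univ : Finset (Fin 6)), pt ![1, 0, 0] (X 0 + ln (P.a i) 0) =
        Polynomial.X := by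
      intro i _
      rw [map_add, pt_ln, pt_X]; simp
    rw [Finset.prod_congr rfl this, Finset.prod_const, Finset.card_univ, Fintype.card_fin]
  rw [h3] at h2
  have h4 : Polynomial.C ((![1, 0, 0] : Fin 3 → K) 1) = 0 := by simp
  rw [h4, zero_mul, zero_pow (by norm_num), mul_zero, mul_zero, zero_mul, zero_sub] at h2
  exact (dvd_neg).1 h2

variable {P : PData K} (hP : P.IsB)
include hP

theorem IsB.three {p w : S K} (h : P.N p w) : pt ![0, 0, 1] p = 0 ∧ pt ![0, 1, -1] p = 0 ∧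
    pt ![-2, 1, 1] p = 0 := by
  have key : ∀ i j : Fin 6, i ≠ j → Unc i j → ∀ e : Fin 3 → K,
      (P.a i - P.a j) * e 1 + (P.b i - P.b j) * e 2 = 0 →
      pt ![-(P.a j * e 1 + P.b j * e 2), e 1, e 2] p = 0 := by
    intro i j hij hu e he
    have h3 := map_dvd (pt e) (P.N_unc h hij hu)
    rw [c_sub, pt_ln, he, Polynomial.C_0, zero_mul, zero_dvd_iff, c, pt_ev] at h3
    exact h3
  refine ⟨?_, ?_, ?_⟩
  · have := key 0 1 (by decide) (by decide) ![0, 0, 1] (by simp [hP.b0, hP.b1])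
    simpa [hP.b1] using this
  · have := key 2 3 (by decide) (by decide) ![0, 1, -1] (by simp [hP.b2, hP.b3])
    simpa [hP.b3] using this
  · have := key 4 5 (by decide) (by decide) ![0, 1, 1] (by simp [hP.b4, hP.b5])
    simpa [hP.b5] using this

theorem IsB.pt2 {p w : S K} (h : P.N p w) (e : Fin 3 → K) : Polynomial.X ^ 2 ∣ pt e p := by
  obtain ⟨h1, h2, h3⟩ := hP.three h
  obtain ⟨l, hl⟩ := pt_coeff_one p
  have k1 := hl ![0, 0, 1]
  have k2 := hl ![0, 1, -1]
  have k3 := hl ![-2, 1, 1]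
  rw [h1, Polynomial.coeff_zero] at k1
  rw [h2, Polynomial.coeff_zero] at k2
  rw [h3, Polynomial.coeff_zero] at k3
  simp at k1 k2 k3
  have l2 : l 2 = 0 := k1.symm
  have l1 : l 1 = 0 := by rw [l2] at k2; linear_combination -k2
  have l0 : l 0 = 0 := by
    rw [l1, l2] at k3
    have : (2 : K) * l 0 = 0 := by linear_combination k3
    exact (mul_eq_zero.1 this).resolve_left hP.two
  rw [Polynomial.X_pow_dvd_iff]
  intro d hd
  interval_cases d
  · rw [pt_coeff_zero, ← pt_coeff_zero ![0, 0, 1], h1, Polynomial.coeff_zero]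
  · rw [hl, l0, l1, l2]; ring

omit hP in
theorem ev_L (a b a' b' : K) : ev (ln a b) (X 0 + ln a' b') = ln (a' - a) (b' - b) := by
  rw [map_add, ev_X0, ev_ln, neg_add_eq_sub, ln_sub]

/-- For an uncovered pair, two of the three forms `X₀`, `X₀ + 2 X₁`, `X₀ + X₁ + X₂` vanish at the
common point. -/
theorem IsB.unc (i j : Fin 6) (hij : i ≠ j) (h : Unc i j) : ∃ m : S K, ∃ r : K, r ≠ 0 ∧
    P.c i - P.c j = C r * m ∧
    ((m ∣ ev (P.c j) (X 0 + ln 0 0) ∧ m ∣ ev (P.c j) (X 0 + ln 2 0)) ∨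
     (m ∣ ev (P.c j) (X 0 + ln 0 0) ∧ m ∣ ev (P.c j) (X 0 + ln 1 1)) ∨
     (m ∣ ev (P.c j) (X 0 + ln 2 0) ∧ m ∣ ev (P.c j) (X 0 + ln 1 1))) := by
  have case1 : ∀ i j : Fin 6, i ≠ j → P.b i = 0 → P.b j = 0 → ∃ m : S K, ∃ r : K, r ≠ 0 ∧
      P.c i - P.c j = C r * m ∧
      (m ∣ ev (P.c j) (X 0 + ln 0 0) ∧ m ∣ ev (P.c j) (X 0 + ln 2 0)) := by
    intro i j hij hi hj
    refine ⟨ln 1 0, P.a i - P.a j, P.a_ne i j hij, ?_, ?_, ?_⟩
    · rw [c_sub, hi, hj, ln_smul]; simp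
    · rw [c, ev_L, hj]
      exact ⟨C (0 - P.a j), by rw [mul_comm, ln_smul]; simp⟩
    · rw [c, ev_L, hj]
      exact ⟨C (2 - P.a j), by rw [mul_comm, ln_smul]; simp⟩
  have case2 : ∀ i j : Fin 6, i ≠ j → P.b i = P.a i → P.b j = P.a j → ∃ m : S K, ∃ r : K, r ≠ 0 ∧
      P.c i - P.c j = C r * m ∧
      (m ∣ ev (P.c j) (X 0 + ln 0 0) ∧ m ∣ ev (P.c j) (X 0 + ln 1 1)) := by
    intro i j hij hi hj
    refine ⟨ln 1 1, P.a i - P.a j, P.a_ne i j hij, ?_, ?_, ?_⟩
    · rw [c_sub, hi, hj, ln_smul]; simp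
    · rw [c, ev_L, hj]
      exact ⟨C (0 - P.a j), by rw [mul_comm, ln_smul]; simp⟩
    · rw [c, ev_L, hj]
      exact ⟨C (1 - P.a j), by rw [mul_comm, ln_smul]; simp⟩
  have case3 : ∀ i j : Fin 6, i ≠ j → P.b i = 2 - P.a i → P.b j = 2 - P.a j → ∃ m : S K, ∃ r : K,
      r ≠ 0 ∧ P.c i - P.c j = C r * m ∧
      (m ∣ ev (P.c j) (X 0 + ln 2 0) ∧ m ∣ ev (P.c j) (X 0 + ln 1 1)) := by
    intro i j hij hi hj
    refine ⟨ln 1 (-1), P.a i - P.a j, P.a_ne i j hij, ?_, ?_, ?_⟩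
    · rw [c_sub, hi, hj, ln_smul]
      congr 1 <;> ring
    · rw [c, ev_L, hj]
      refine ⟨C (2 - P.a j), ?_⟩
      rw [mul_comm, ln_smul]
      congr 1 <;> ring
    · rw [c, ev_L, hj]
      refine ⟨C (1 - P.a j), ?_⟩
      rw [mul_comm, ln_smul]
      congr 1 <;> ring
  have one : ∀ i j : Fin 6, i ≠ j → P.b i = 0 → P.b j = 0 → ∃ m : S K, ∃ r : K, r ≠ 0 ∧
      P.c i - P.c j = C r * m ∧
      ((m ∣ ev (P.c j) (X 0 + ln 0 0) ∧ m ∣ ev (P.c j) (X 0 + ln 2 0)) ∨
       (m ∣ ev (P.c j) (X 0 + ln 0 0) ∧ m ∣ ev (P.c j) (X 0 + ln 1 1)) ∨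
       (m ∣ ev (P.c j) (X 0 + ln 2 0) ∧ m ∣ ev (P.c j) (X 0 + ln 1 1))) := by
    intro i j hij hi hj
    obtain ⟨m, r, h1, h2, h3⟩ := case1 i j hij hi hj
    exact ⟨m, r, h1, h2, Or.inl h3⟩
  have two : ∀ i j : Fin 6, i ≠ j → P.b i = P.a i → P.b j = P.a j → ∃ m : S K, ∃ r : K, r ≠ 0 ∧
      P.c i - P.c j = C r * m ∧
      ((m ∣ ev (P.c j) (X 0 + ln 0 0) ∧ m ∣ ev (P.c j) (X 0 + ln 2 0)) ∨
       (m ∣ ev (P.c j) (X 0 + ln 0 0) ∧ m ∣ ev (P.c j) (X 0 + ln 1 1)) ∨
       (m ∣ ev (P.c j) (X 0 + ln 2 0) ∧ m ∣ ev (P.c j) (X 0 + ln 1 1))) := by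
    intro i j hij hi hj
    obtain ⟨m, r, h1, h2, h3⟩ := case2 i j hij hi hj
    exact ⟨m, r, h1, h2, Or.inr (Or.inl h3)⟩
  have three : ∀ i j : Fin 6, i ≠ j → P.b i = 2 - P.a i → P.b j = 2 - P.a j → ∃ m : S K, ∃ r : K,
      r ≠ 0 ∧ P.c i - P.c j = C r * m ∧
      ((m ∣ ev (P.c j) (X 0 + ln 0 0) ∧ m ∣ ev (P.c j) (X 0 + ln 2 0)) ∨
       (m ∣ ev (P.c j) (X 0 + ln 0 0) ∧ m ∣ ev (P.c j) (X 0 + ln 1 1)) ∨
       (m ∣ ev (P.c j) (X 0 + ln 2 0) ∧ m ∣ ev (P.c j) (X 0 + ln 1 1))) := by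
    intro i j hij hi hj
    obtain ⟨m, r, h1, h2, h3⟩ := case3 i j hij hi hj
    exact ⟨m, r, h1, h2, Or.inr (Or.inr h3)⟩
  fin_cases i <;> fin_cases j <;> first
    | exact absurd rfl hij
    | exact absurd h (by decide)
    | exact one 0 1 (by decide) hP.b0 hP.b1
    | exact one 1 0 (by decide) hP.b1 hP.b0
    | exact two 2 3 (by decide) hP.b2 hP.b3
    | exact two 3 2 (by decide) hP.b3 hP.b2
    | exact three 4 5 (by decide) hP.b4 hP.b5
    | exact three 5 4 (by decide) hP.b5 hP.b4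

omit hP in
theorem two_of_three {m E0 E1 E2 : S K} (H : (m ∣ E0 ∧ m ∣ E1) ∨ (m ∣ E0 ∧ m ∣ E2) ∨
    (m ∣ E1 ∧ m ∣ E2)) : m ∣ E0 * E1 ∧ m ∣ E0 * E2 ∧ m ∣ E1 * E2 := by
  rcases H with H | H | H
  · exact ⟨Dvd.dvd.mul_right H.1 _, Dvd.dvd.mul_right H.1 _, Dvd.dvd.mul_right H.2 _⟩
  · exact ⟨Dvd.dvd.mul_right H.1 _, Dvd.dvd.mul_right H.1 _, Dvd.dvd.mul_left H.2 _⟩
  · exact ⟨Dvd.dvd.mul_left H.1 _, Dvd.dvd.mul_left H.2 _, Dvd.dvd.mul_right H.1 _⟩

theorem IsB.lift {A B : S K} (h : (A = X 0 + ln 0 0 ∧ B = X 0 + ln 2 0) ∨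
    (A = X 0 + ln 0 0 ∧ B = X 0 + ln 1 1) ∨ (A = X 0 + ln 2 0 ∧ B = X 0 + ln 1 1)) :
    ∃ w, P.N (A * B) w := by
  apply P.N_lift
  intro i j hij hu
  obtain ⟨m, r, hr, e, H⟩ := hP.unc i j hij hu
  have hun : IsUnit (C r : S K) := (isUnit_iff_ne_zero.2 hr).map C
  rw [e, hun.mul_left_dvd, map_mul]
  obtain ⟨t1, t2, t3⟩ := two_of_three H
  rcases h with ⟨rfl, rfl⟩ | ⟨rfl, rfl⟩ | ⟨rfl, rfl⟩
  · exact t1
  · exact t2
  · exact t3


omit hP in
/-- The functionals. -/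
noncomputable def Lam (g p w : S K) : Fin 5 → K :=
  ![constantCoeff g, (pt ![1, 0, 0] w).coeff 6, (pt ![0, 1, 0] p).coeff 2,
    (pt ![-2, 1, 0] p).coeff 2, (pt ![-1, 1, 0] p).coeff 2]

theorem IsB.Lam_sum (s : Fin 4 → S K) (g p w : Fin 4 → S K) (h : ∀ k, P.N (p k) (w k)) :
    Lam (∑ k, s k * g k) (∑ k, s k * p k) (∑ k, s k * w k) =
      ∑ k, constantCoeff (s k) • Lam (g k) (p k) (w k) := by
  have h6 : (pt ![1, 0, 0] (∑ k, s k * w k)).coeff 6 =
      ∑ k, constantCoeff (s k) * (pt ![1, 0, 0] (w k)).coeff 6 := by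
    rw [map_sum, Polynomial.finsetSum_coeff]
    refine Finset.sum_congr rfl fun k _ => ?_
    rw [map_mul, coeff_mul_dvd (P.N_pt6 (h k)), pt_coeff_zero]
  have h2 : ∀ e : Fin 3 → K, (pt e (∑ k, s k * p k)).coeff 2 =
      ∑ k, constantCoeff (s k) * (pt e (p k)).coeff 2 := by
    intro e
    rw [map_sum, Polynomial.finsetSum_coeff]
    refine Finset.sum_congr rfl fun k _ => ?_
    rw [map_mul, coeff_mul_dvd (hP.pt2 (h k) e), pt_coeff_zero]
  funext t
  rw [Finset.sum_apply]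
  fin_cases t
  · show constantCoeff (∑ k, s k * g k) = ∑ k, constantCoeff (s k) * constantCoeff (g k)
    rw [map_sum]
    exact Finset.sum_congr rfl fun k _ => map_mul _ _ _
  · exact h6
  · exact h2 _
  · exact h2 _
  · exact h2 _

/-- Four elements do not generate. -/
theorem IsB.not_gen (M : Submodule (S K) (Fin 3 → S K)) (hM : ∀ θ, θ ∈ M ↔ P.Mem θ)
    (gen : Fin 4 → Fin 3 → S K) (hgen : Submodule.span (S K) (Set.range gen) = M) : False := by
  have hdata : ∀ k, ∃ g p w, gen k 0 = X 0 * g + w ∧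
      gen k 1 = X 1 * g + P.Q * p ∧ gen k 2 = X 2 * g ∧ P.N p w := by
    intro k
    rw [← P.mem_iff, ← hM, ← hgen]
    exact Submodule.subset_span ⟨k, rfl⟩
  choose g p w e0 e1 e2 hN using hdata
  set V : Submodule K (Fin 5 → K) := Submodule.span K (Set.range fun k => Lam (g k) (p k) (w k))
    with hV
  have hLam : ∀ G p' W, P.N p' W → Lam G p' W ∈ V := by
    intro G p' W hN'
    have hmem : (![X 0 * G + W, X 1 * G + P.Q * p', X 2 * G] : Fin 3 → S K) ∈ M := by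
      rw [hM, P.mem_iff]
      exact ⟨G, p', W, rfl, rfl, rfl, hN'⟩
    rw [← hgen, Submodule.mem_span_range_iff_exists_fun] at hmem
    obtain ⟨s, hs⟩ := hmem
    have s0 := congrFun hs 0
    have s1 := congrFun hs 1
    have s2 := congrFun hs 2
    rw [Finset.sum_apply] at s0 s1 s2
    have s0' : ∑ k, s k * (X 0 * g k + w k) = X 0 * G + W := by
      rw [← show (![X 0 * G + W, X 1 * G + P.Q * p', X 2 * G] : Fin 3 → S K) 0 = X 0 * G + W
        from rfl, ← s0]
      exact Finset.sum_congr rfl fun k _ => by rw [Pi.smul_apply, smul_eq_mul, e0]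
    have s1' : ∑ k, s k * (X 1 * g k + P.Q * p k) = X 1 * G + P.Q * p' := by
      rw [← show (![X 0 * G + W, X 1 * G + P.Q * p', X 2 * G] : Fin 3 → S K) 1 =
        X 1 * G + P.Q * p' from rfl, ← s1]
      exact Finset.sum_congr rfl fun k _ => by rw [Pi.smul_apply, smul_eq_mul, e1]
    have s2' : ∑ k, s k * (X 2 * g k) = X 2 * G := by
      rw [← show (![X 0 * G + W, X 1 * G + P.Q * p', X 2 * G] : Fin 3 → S K) 2 = X 2 * G
        from rfl, ← s2]
      exact Finset.sum_congr rfl fun k _ => by rw [Pi.smul_apply, smul_eq_mul, e2]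
    have hG : ∑ k, s k * g k = G := by
      have : X 2 * (∑ k, s k * g k) = X 2 * G := by
        rw [← s2', Finset.mul_sum]
        exact Finset.sum_congr rfl fun k _ => by ring
      exact mul_left_cancel₀ (X_ne_zero 2) this
    have hp' : ∑ k, s k * p k = p' := by
      have : P.Q * (∑ k, s k * p k) = P.Q * p' := by
        have h1 : ∑ k, s k * (X 1 * g k + P.Q * p k) =
            X 1 * (∑ k, s k * g k) + P.Q * ∑ k, s k * p k := by
          rw [Finset.mul_sum, Finset.mul_sum, ← Finset.sum_add_distrib]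
          exact Finset.sum_congr rfl fun k _ => by ring
        rw [h1, hG] at s1'
        exact add_left_cancel s1'
      exact mul_left_cancel₀ P.Q_ne this
    have hW : ∑ k, s k * w k = W := by
      have h1 : ∑ k, s k * (X 0 * g k + w k) =
          X 0 * (∑ k, s k * g k) + ∑ k, s k * w k := by
        rw [Finset.mul_sum, ← Finset.sum_add_distrib]
        exact Finset.sum_congr rfl fun k _ => by ring
      rw [h1, hG] at s0'
      exact add_left_cancel s0'
    rw [← hG, ← hp', ← hW, hP.Lam_sum s g p w hN]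
    exact Submodule.sum_mem _ fun k _ => Submodule.smul_mem _ _
      (Submodule.subset_span ⟨k, rfl⟩)
  -- the five unit vectors
  have hR : P.N 0 P.R := fun i => by
    rw [mul_zero, mul_zero, add_zero]
    exact Finset.dvd_prod_of_mem _ (Finset.mem_univ i)
  have v0 : (Pi.single 0 1 : Fin 5 → K) ∈ V := by
    have h := hLam 1 0 0 (fun i => by simp)
    have e : Lam (1 : S K) 0 0 = Pi.single 0 1 := by
      funext t
      fin_cases t <;> simp [Lam]
    rwa [e] at h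
  have v1 : (Pi.single 1 1 : Fin 5 → K) ∈ V := by
    have h := hLam 0 0 P.R hR
    have e6 : (pt ![1, 0, 0] P.R).coeff 6 = 1 := by
      have : pt ![1, 0, 0] P.R = Polynomial.X ^ 6 := by
        rw [R, map_prod]
        have : ∀ i ∈ (Finset.univ : Finset (Fin 6)), pt ![1, 0, 0] (X 0 + P.c i) =
            Polynomial.X := by
          intro i _
          rw [map_add, c, pt_ln, pt_X]; simp
        rw [Finset.prod_congr rfl this, Finset.prod_const, Finset.card_univ, Fintype.card_fin]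
      rw [this, Polynomial.coeff_X_pow, if_pos rfl]
    have e : Lam (0 : S K) 0 P.R = Pi.single 1 1 := by
      funext t
      fin_cases t
      · simp [Lam]
      · exact e6
      · simp [Lam]
      · simp [Lam]
      · simp [Lam]
    rwa [e] at h
  have hco : ∀ (e : Fin 3 → K) (r r' : K), (Polynomial.C r * Polynomial.X *
      (Polynomial.C r' * Polynomial.X)).coeff 2 = r * r' := by
    intro e r r'
    have : Polynomial.C r * Polynomial.X * (Polynomial.C r' * Polynomial.X) =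
        Polynomial.C (r * r') * Polynomial.X ^ 2 := by
      rw [Polynomial.C_mul]; ring
    rw [this, Polynomial.coeff_C_mul_X_pow, if_pos rfl]
  have hpL : ∀ (e : Fin 3 → K) (a b : K), pt e (X 0 + ln a b) =
      Polynomial.C (e 0 + (a * e 1 + b * e 2)) * Polynomial.X := by
    intro e a b
    rw [map_add, pt_X, pt_ln]
    simp only [Polynomial.C_add]
    ring
  have hval : ∀ (e : Fin 3 → K) (a b a' b' : K),
      (pt e ((X 0 + ln a b) * (X 0 + ln a' b'))).coeff 2 =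
        (e 0 + (a * e 1 + b * e 2)) * (e 0 + (a' * e 1 + b' * e 2)) := by
    intro e a b a' b'
    rw [map_mul, hpL, hpL, hco e]
  have unit : ∀ (A B : S K) (t : Fin 5) (r : K), r ≠ 0 → ((A = X 0 + ln 0 0 ∧ B = X 0 + ln 2 0) ∨
      (A = X 0 + ln 0 0 ∧ B = X 0 + ln 1 1) ∨ (A = X 0 + ln 2 0 ∧ B = X 0 + ln 1 1)) →
      (∀ x : K, (![0, x, (pt ![0, 1, 0] (A * B)).coeff 2,
        (pt ![-2, 1, 0] (A * B)).coeff 2, (pt ![-1, 1, 0] (A * B)).coeff 2] : Fin 5 → K) =
        Pi.single 1 x + Pi.single t r) →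
      (Pi.single t 1 : Fin 5 → K) ∈ V := by
    intro A B t r hr hAB hx
    obtain ⟨W, hW⟩ := hP.lift hAB
    have h := hLam 0 (A * B) W hW
    have e : Lam (0 : S K) (A * B) W = Pi.single 1 ((pt ![1, 0, 0] W).coeff 6) +
        Pi.single t r := by
      rw [← hx]
      simp [Lam]
    rw [e] at h
    have h' : (Pi.single 1 ((pt ![1, 0, 0] W).coeff 6) : Fin 5 → K) =
        ((pt ![1, 0, 0] W).coeff 6) • Pi.single 1 1 := by
      rw [← Pi.single_smul, smul_eq_mul, mul_one]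
    have h2 : (Pi.single t r : Fin 5 → K) ∈ V := by
      have := Submodule.sub_mem _ h (Submodule.smul_mem V ((pt ![1, 0, 0] W).coeff 6) v1)
      rwa [h', add_sub_cancel_left] at this
    have h3 := Submodule.smul_mem V r⁻¹ h2
    rwa [← Pi.single_smul, smul_eq_mul, inv_mul_cancel₀ hr] at h3
  have v2 : (Pi.single 2 1 : Fin 5 → K) ∈ V := by
    refine unit (X 0 + ln 2 0) (X 0 + ln 1 1) 2 2 hP.two (Or.inr (Or.inr ⟨rfl, rfl⟩)) ?_
    intro x
    rw [hval, hval, hval]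
    funext t
    fin_cases t <;> simp
  have v3 : (Pi.single 3 1 : Fin 5 → K) ∈ V := by
    refine unit (X 0 + ln 0 0) (X 0 + ln 1 1) 3 2 hP.two (Or.inr (Or.inl ⟨rfl, rfl⟩)) ?_
    intro x
    rw [hval, hval, hval]
    funext t
    fin_cases t <;> simp <;> ring
  have v4 : (Pi.single 4 1 : Fin 5 → K) ∈ V := by
    refine unit (X 0 + ln 0 0) (X 0 + ln 2 0) 4 (-1) (neg_ne_zero.2 one_ne_zero)
      (Or.inl ⟨rfl, rfl⟩) ?_
    intro x
    rw [hval, hval, hval]
    funext t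
    fin_cases t <;> simp <;> ring
  have htop : V = ⊤ := by
    rw [eq_top_iff]
    intro x _
    have hx : x = ∑ t, x t • (Pi.single t 1 : Fin 5 → K) := by
      funext t
      rw [Finset.sum_apply]
      simp [Pi.single_apply]
    rw [hx]
    refine Submodule.sum_mem _ fun t _ => Submodule.smul_mem _ _ ?_
    fin_cases t
    · exact v0
    · exact v1
    · exact v2
    · exact v3
    · exact v4
  have hle : Module.finrank K V ≤ 4 := by
    have := finrank_range_le_card (R := K) (fun k : Fin 4 => Lam (g k) (p k) (w k))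
    rwa [Fintype.card_fin] at this
  rw [htop, finrank_top, Module.finrank_fintype_fun_eq_card, Fintype.card_fin] at hle
  omega

end PData

/-- The second arrangement is not plus-one generated. -/
theorem B_not_pog (K : Type u) [Field K] [CharZero K] (e : Fin 3 → ℕ) (d : ℕ) :
    ¬ IsPOG (mkArr K condB) e d := by
  rintro ⟨Z⟩
  refine PData.IsB.not_gen (P := PData.ofInt K condB) ?_ _ (mem_Dlog condB)
    (Fin.cons Z.φ Z.θ) (by rw [Fin.range_cons]; exact Z.span)
  refine ⟨two_ne_zero, ?_, ?_, ?_, ?_, ?_, ?_⟩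
  · show ((bB 0 : ℤ) : K) = 0; simp [bB]
  · show ((bB 1 : ℤ) : K) = 0; simp [bB]
  · show ((bB 2 : ℤ) : K) = ((aB 2 : ℤ) : K); simp [bB, aB]
  · show ((bB 3 : ℤ) : K) = ((aB 3 : ℤ) : K); simp [bB, aB]
  · show ((bB 4 : ℤ) : K) = 2 - ((aB 4 : ℤ) : K)
    have : ((bB 4 : ℤ) : K) = ((2 - aB 4 : ℤ) : K) := by congr 1
    rw [this]; push_cast; rfl
  · show ((bB 5 : ℤ) : K) = 2 - ((aB 5 : ℤ) : K)
    have : ((bB 5 : ℤ) : K) = ((2 - aB 5 : ℤ) : K) := by congr 1
    rw [this]; push_cast; rfl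

end H24POG
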