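import Pool.Agent.H24.POG.Defs

/-!
# Isomorphisms of intersection lattices in dimension three
-/

universe u

namespace H24POG

variable {K : Type u} [CommRing K]

/-- Cross product. -/
def cross (v w : Fin 3 → K) : Fin 3 → K :=
  ![v 1 * w 2 - v 2 * w 1, v 2 * w 0 - v 0 * w 2, v 0 * w 1 - v 1 * w 0]

/-- Determinant. -/
def det3 (u v w : Fin 3 → K) : K :=
  u 0 * (v 1 * w 2 - v 2 * w 1) + u 1 * (v 2 * w 0 - v 0 * w 2) + u 2 * (v 0 * w 1 - v 1 * w 0)

end H24POG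

namespace H24POG
variable {K : Type u} [Field K]

theorem mem_hyp (v x : Fin 3 → K) : x ∈ hyp v ↔ v 0 * x 0 + v 1 * x 1 + v 2 * x 2 = 0 := by
  show ∑ t, v t * x t = 0 ↔ _
  rw [Fin.sum_univ_three]

theorem cross_ne {v w : Fin 3 → K} (h : cross v w ≠ 0) :
    v 1 * w 2 - v 2 * w 1 ≠ 0 ∨ v 2 * w 0 - v 0 * w 2 ≠ 0 ∨ v 0 * w 1 - v 1 * w 0 ≠ 0 := by
  by_contra hc
  push Not at hc
  apply h
  funext t
  fin_cases t
  · exact hc.1
  · exact hc.2.1
  · exact hc.2.2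

/-- A common zero of two independent forms is a zero of every form dependent on them. -/
theorem zero_of_det {v w u x : Fin 3 → K} (h : cross v w ≠ 0)
    (hv : v 0 * x 0 + v 1 * x 1 + v 2 * x 2 = 0) (hw : w 0 * x 0 + w 1 * x 1 + w 2 * x 2 = 0)
    (hd : det3 u v w = 0) : u 0 * x 0 + u 1 * x 1 + u 2 * x 2 = 0 := by
  have hd' : u 0 * (v 1 * w 2 - v 2 * w 1) + u 1 * (v 2 * w 0 - v 0 * w 2) +
    u 2 * (v 0 * w 1 - v 1 * w 0) = 0 := hd
  rcases cross_ne h with h | h | h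
  · have : (v 1 * w 2 - v 2 * w 1) * (u 0 * x 0 + u 1 * x 1 + u 2 * x 2) = 0 := by
      linear_combination x 0 * hd' + (u 1 * w 2 - u 2 * w 1) * hv + (u 2 * v 1 - u 1 * v 2) * hw
    exact (mul_eq_zero.1 this).resolve_left h
  · have : (v 2 * w 0 - v 0 * w 2) * (u 0 * x 0 + u 1 * x 1 + u 2 * x 2) = 0 := by
      linear_combination x 1 * hd' + (u 2 * w 0 - u 0 * w 2) * hv + (u 0 * v 2 - u 2 * v 0) * hw
    exact (mul_eq_zero.1 this).resolve_left h
  · have : (v 0 * w 1 - v 1 * w 0) * (u 0 * x 0 + u 1 * x 1 + u 2 * x 2) = 0 := by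
      linear_combination x 2 * hd' + (u 0 * w 1 - u 1 * w 0) * hv + (u 1 * v 0 - u 0 * v 1) * hw
    exact (mul_eq_zero.1 this).resolve_left h

theorem zero_of_three {u v w x : Fin 3 → K} (hd : det3 u v w ≠ 0)
    (hu : u 0 * x 0 + u 1 * x 1 + u 2 * x 2 = 0)
    (hv : v 0 * x 0 + v 1 * x 1 + v 2 * x 2 = 0) (hw : w 0 * x 0 + w 1 * x 1 + w 2 * x 2 = 0) :
    x = 0 := by
  have h0 : det3 u v w * x 0 = 0 := by
    simp only [det3]
    linear_combination (v 1 * w 2 - v 2 * w 1) * hu + (u 2 * w 1 - u 1 * w 2) * hv +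
      (u 1 * v 2 - u 2 * v 1) * hw
  have h1 : det3 u v w * x 1 = 0 := by
    simp only [det3]
    linear_combination (v 2 * w 0 - v 0 * w 2) * hu + (u 0 * w 2 - u 2 * w 0) * hv +
      (u 2 * v 0 - u 0 * v 2) * hw
  have h2 : det3 u v w * x 2 = 0 := by
    simp only [det3]
    linear_combination (v 0 * w 1 - v 1 * w 0) * hu + (u 1 * w 0 - u 0 * w 1) * hv +
      (u 0 * v 1 - u 1 * v 0) * hw
  funext t
  fin_cases t
  · exact (mul_eq_zero.1 h0).resolve_left hd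
  · exact (mul_eq_zero.1 h1).resolve_left hd
  · exact (mul_eq_zero.1 h2).resolve_left hd

/-- Two independent forms: there is a zero of the first which is not a zero of the second. -/
theorem exists_zero {v w : Fin 3 → K} (h : cross v w ≠ 0) :
    ∃ x : Fin 3 → K, v 0 * x 0 + v 1 * x 1 + v 2 * x 2 = 0 ∧
      w 0 * x 0 + w 1 * x 1 + w 2 * x 2 ≠ 0 := by
  rcases cross_ne h with h | h | h
  · refine ⟨![0, v 2, -v 1], by simp; ring, ?_⟩
    intro h0
    simp at h0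
    exact h (by linear_combination -h0)
  · refine ⟨![-v 2, 0, v 0], by simp; ring, ?_⟩
    intro h0
    simp at h0
    exact h (by linear_combination -h0)
  · refine ⟨![v 1, -v 0, 0], by simp; ring, ?_⟩
    intro h0
    simp at h0
    exact h (by linear_combination -h0)

theorem hyp_ne {v w : Fin 3 → K} (h : cross v w ≠ 0) : ¬ hyp v ≤ hyp w := by
  obtain ⟨x, h1, h2⟩ := exists_zero h
  intro hle
  exact h2 ((mem_hyp w x).1 (hle ((mem_hyp v x).2 h1)))

theorem det3_cross (u v w : Fin 3 → K) : u 0 * cross v w 0 + u 1 * cross v w 1 + u 2 * cross v w 2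
    = det3 u v w := rfl

theorem le_hyp_iff {n : ℕ} (c : Fin n → Fin 3 → K) (hne : ∀ i, c i ≠ 0)
    (hp : ∀ i j, i ≠ j → cross (c i) (c j) ≠ 0) (T : Set (Fin n)) (j : Fin n) :
    (⨅ i ∈ T, hyp (c i)) ≤ hyp (c j) ↔ j ∈ T ∨
      (∃ s ∈ T, ∃ t ∈ T, s ≠ t ∧ det3 (c j) (c s) (c t) = 0) ∨
      ∃ s ∈ T, ∃ t ∈ T, ∃ u ∈ T, det3 (c s) (c t) (c u) ≠ 0 := by
  have hmem : ∀ x : Fin 3 → K, x ∈ (⨅ i ∈ T, hyp (c i)) ↔ ∀ i ∈ T, x ∈ hyp (c i) := by
    intro x
    simp only [Submodule.mem_iInf]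
  constructor
  · intro hle
    by_contra hc
    push Not at hc
    obtain ⟨hj, h2, h3⟩ := hc
    rcases Set.eq_empty_or_nonempty T with hT | ⟨s, hs⟩
    · apply hne j
      have hall : ∀ x : Fin 3 → K, x ∈ hyp (c j) := fun x => hle ((hmem x).2 (by simp [hT]))
      funext t
      have h0 := (mem_hyp _ _).1 (hall (Pi.single t 1))
      fin_cases t <;> simpa using h0
    · by_cases hT : ∃ t ∈ T, s ≠ t
      · obtain ⟨t, ht, hst⟩ := hT
        have hx : cross (c s) (c t) ∈ (⨅ i ∈ T, hyp (c i)) := by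
          rw [hmem]
          intro u hu
          rw [mem_hyp, det3_cross]
          exact h3 u hu s hs t ht
        have := hle hx
        rw [mem_hyp, det3_cross] at this
        exact h2 s hs t ht hst this
      · push Not at hT
        have hsj : s ≠ j := fun h => hj (h ▸ hs)
        obtain ⟨x, hx1, hx2⟩ := exists_zero (hp s j hsj)
        apply hx2
        rw [← mem_hyp]
        apply hle
        rw [hmem]
        intro u hu
        rw [← hT u hu, mem_hyp]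
        exact hx1
  · rintro (h | ⟨s, hs, t, ht, hst, hd⟩ | ⟨s, hs, t, ht, u, hu, hd⟩)
    · exact iInf₂_le j h
    · intro x hx
      rw [hmem] at hx
      rw [mem_hyp]
      exact zero_of_det (hp s t hst) ((mem_hyp _ _).1 (hx s hs)) ((mem_hyp _ _).1 (hx t ht)) hd
    · intro x hx
      rw [hmem] at hx
      rw [zero_of_three hd ((mem_hyp _ _).1 (hx s hs)) ((mem_hyp _ _).1 (hx t ht))
        ((mem_hyp _ _).1 (hx u hu))]
      exact Submodule.zero_mem _

/-- Order isomorphism between the ranges of two families with the same comparisons. -/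
theorem range_iso {ι α β : Type*} [PartialOrder α] [PartialOrder β] (F : ι → α) (G : ι → β)
    (h : ∀ i j, F i ≤ F j ↔ G i ≤ G j) : Nonempty (Set.range F ≃o Set.range G) := by
  classical
  have hF : ∀ x : Set.range F, F x.2.choose = x.1 := fun x => x.2.choose_spec
  have hG : ∀ x : Set.range G, G x.2.choose = x.1 := fun x => x.2.choose_spec
  have heq : ∀ i j, F i = F j ↔ G i = G j := fun i j => by
    rw [le_antisymm_iff, le_antisymm_iff, h, h]
  refine ⟨⟨⟨fun x => ⟨G x.2.choose, _, rfl⟩, fun y => ⟨F y.2.choose, _, rfl⟩, ?_, ?_⟩, ?_⟩⟩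
  · intro x
    apply Subtype.ext
    show F (Exists.choose _) = x.1
    rw [← hF x, heq]
    exact hG ⟨G x.2.choose, _, rfl⟩
  · intro y
    apply Subtype.ext
    show G (Exists.choose _) = y.1
    rw [← hG y, ← heq]
    exact hF ⟨F y.2.choose, _, rfl⟩
  · intro x y
    show G _ ≤ G _ ↔ x.1 ≤ y.1
    rw [← h, hF, hF]

/-- Isomorphism of intersection lattices. -/
theorem flats_iso (A B : Arr K 3) (hn : A.n = B.n)
    (hpA : ∀ i j, i ≠ j → cross (A.c i) (A.c j) ≠ 0)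
    (hpB : ∀ i j, i ≠ j → cross (B.c i) (B.c j) ≠ 0)
    (hd : ∀ i j l : Fin A.n, det3 (A.c i) (A.c j) (A.c l) = 0 ↔
      det3 (B.c (Fin.cast hn i)) (B.c (Fin.cast hn j)) (B.c (Fin.cast hn l)) = 0) :
    Nonempty (flats A ≃o flats B) := by
  obtain ⟨n, cA, a1, a2, a3⟩ := A
  obtain ⟨m, cB, b1, b2, b3⟩ := B
  obtain rfl : n = m := hn
  have key : ∀ (T : Set (Fin n)) j, (⨅ i ∈ T, hyp (cA i)) ≤ hyp (cA j) ↔
      (⨅ i ∈ T, hyp (cB i)) ≤ hyp (cB j) := by
    intro T j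
    rw [le_hyp_iff cA a1 hpA, le_hyp_iff cB b1 hpB]
    have hd' : ∀ i j l : Fin n, det3 (cA i) (cA j) (cA l) = 0 ↔
      det3 (cB i) (cB j) (cB l) = 0 := hd
    simp only [hd', ne_eq]
  obtain ⟨e⟩ := range_iso (fun T : Set (Fin n) => ⨅ i ∈ T, hyp (cA i))
    (fun T : Set (Fin n) => ⨅ i ∈ T, hyp (cB i)) (by
      intro T T'
      simp only [le_iInf_iff]
      exact forall₂_congr fun j _ => key T j)
  have e1 : flats ⟨n, cA, a1, a2, a3⟩ = Set.range (fun T : Set (Fin n) => ⨅ i ∈ T, hyp (cA i)) := by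
    ext W
    exact ⟨fun ⟨T, h⟩ => ⟨T, h.symm⟩, fun ⟨T, h⟩ => ⟨T, h.symm⟩⟩
  have e2 : flats ⟨n, cB, b1, b2, b3⟩ = Set.range (fun T : Set (Fin n) => ⨅ i ∈ T, hyp (cB i)) := by
    ext W
    exact ⟨fun ⟨T, h⟩ => ⟨T, h.symm⟩, fun ⟨T, h⟩ => ⟨T, h.symm⟩⟩
  rw [e1, e2]
  exact ⟨e⟩

end H24POG
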