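import Pool.Agent.H24.POG.Struct
import Pool.Agent.H24.POG.Lat

/-!
# The arrangements
-/

open MvPolynomial

universe u

namespace H24POG

/-- Coefficients of the nineteen lines. -/
def cvec {K : Type*} [Zero K] [One K] (a b : Fin 6 → K) (u v : Fin 12 → K) :
    Fin (6 + (1 + 12)) → Fin 3 → K :=
  Fin.append (fun i => ![1, a i, b i]) (Fin.append (fun _ => ![0, 0, 1]) (fun s => ![0, u s, v s]))

/-- Conditions on integer data. -/
def Cond (a b : Fin 6 → ℤ) (u v : Fin 12 → ℤ) : Prop :=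
  (∀ i j, i ≠ j → a i - a j ≠ 0) ∧ (∀ s, u s ≠ 0) ∧
  (∀ s t, s ≠ t → u s * v t - v s * u t ≠ 0) ∧
  (∀ i j l, i ≠ j → i ≠ l → j ≠ l → (a i - a j) * (b i - b l) - (b i - b j) * (a i - a l) ≠ 0) ∧
  (∀ i j, ¬ Unc i j → ∃ s, (a i - a j = u s ∧ b i - b j = v s) ∨
    (a i - a j = -u s ∧ b i - b j = -v s)) ∧
  (∀ i j, i ≠ j → Unc i j → ∀ s, (a i - a j) * v s - (b i - b j) * u s ≠ 0) ∧
  (∀ i j, i ≠ j → cross (cvec a b u v i) (cvec a b u v j) ≠ 0)

instance (a b : Fin 6 → ℤ) (u v : Fin 12 → ℤ) : Decidable (Cond a b u v) := by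
  unfold Cond; infer_instance

variable (K : Type u) [Field K] [CharZero K]

/-- The data over a field of characteristic zero. -/
def PData.ofInt {a b : Fin 6 → ℤ} {u v : Fin 12 → ℤ} (h : Cond a b u v) : PData K where
  a i := (a i : K)
  b i := (b i : K)
  u s := (u s : K)
  v s := (v s : K)
  a_ne i j hij := by
    have := h.1 i j hij
    exact_mod_cast this
  u_ne s := by
    have := h.2.1 s
    exact_mod_cast this
  uv s t hst := by
    have := h.2.2.1 s t hst
    exact_mod_cast this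
  tri i j l h1 h2 h3 := by
    have := h.2.2.2.1 i j l h1 h2 h3
    exact_mod_cast this
  cov i j hu := by
    obtain ⟨s, ⟨h1, h2⟩ | ⟨h1, h2⟩⟩ := h.2.2.2.2.1 i j hu
    · refine ⟨s, 1, ?_, ?_⟩
      · rw [one_mul]; exact_mod_cast h1
      · rw [one_mul]; exact_mod_cast h2
    · refine ⟨s, -1, ?_, ?_⟩
      · rw [neg_one_mul]; exact_mod_cast h1
      · rw [neg_one_mul]; exact_mod_cast h2
  unc_ne i j hij hu s := by
    have := h.2.2.2.2.2.1 i j hij hu s
    exact_mod_cast this

variable {K}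

theorem cvec_cast (a b : Fin 6 → ℤ) (u v : Fin 12 → ℤ) (i : Fin (6 + (1 + 12))) (t : Fin 3) :
    cvec (fun i => (a i : K)) (fun i => (b i : K)) (fun s => (u s : K)) (fun s => (v s : K)) i t =
      ((cvec a b u v i t : ℤ) : K) := by
  refine Fin.addCases (fun i => ?_) (fun j => ?_) i
  · simp only [cvec, Fin.append_left]
    fin_cases t <;> simp
  · refine Fin.addCases (fun i => ?_) (fun j => ?_) j
    · simp only [cvec, Fin.append_right, Fin.append_left]
      fin_cases t <;> simp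
    · simp only [cvec, Fin.append_right]
      fin_cases t <;> simp

theorem cross_cast (v w : Fin 3 → ℤ) (t : Fin 3) :
    cross (fun t => (v t : K)) (fun t => (w t : K)) t = ((cross v w t : ℤ) : K) := by
  fin_cases t <;> simp [cross]

theorem det3_cast (u v w : Fin 3 → ℤ) :
    det3 (fun t => (u t : K)) (fun t => (v t : K)) (fun t => (w t : K)) =
      ((det3 u v w : ℤ) : K) := by
  simp [det3]

/-- The coefficients over `K`. -/
def cK (K : Type u) [Field K] (a b : Fin 6 → ℤ) (u v : Fin 12 → ℤ) :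
    Fin (6 + (1 + 12)) → Fin 3 → K := fun i t => ((cvec a b u v i t : ℤ) : K)

theorem cross_cK {a b : Fin 6 → ℤ} {u v : Fin 12 → ℤ} (h : Cond a b u v) (i j)
    (hij : i ≠ j) : cross (cK K a b u v i) (cK K a b u v j) ≠ 0 := by
  intro h0
  apply h.2.2.2.2.2.2 i j hij
  funext t
  have h1 := congrFun h0 t
  have h2 := cross_cast (K := K) (cvec a b u v i) (cvec a b u v j) t
  have h3 : cross (cK K a b u v i) (cK K a b u v j) t =
    cross (fun t => ((cvec a b u v i t : ℤ) : K)) (fun t => ((cvec a b u v j t : ℤ) : K)) t := rfl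
  rw [h3, h2] at h1
  exact Int.cast_eq_zero.1 h1

/-- The arrangement. -/
def mkArr (K : Type u) [Field K] [CharZero K] {a b : Fin 6 → ℤ} {u v : Fin 12 → ℤ}
    (h : Cond a b u v) : Arr K 3 where
  n := 6 + (1 + 12)
  c := cK K a b u v
  ne_zero i h0 := by
    obtain ⟨j, hj⟩ : ∃ j, i ≠ j := by
      by_cases hi : i = 0
      · exact ⟨1, by rw [hi]; decide⟩
      · exact ⟨0, hi⟩
    apply cross_cK (K := K) h i j hj
    rw [h0]
    funext t
    fin_cases t <;> simp [cross]
  distinct := by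
    intro i j hij
    by_contra hne
    exact hyp_ne (cross_cK (K := K) h i j hne) (le_of_eq hij)
  essential := by
    rw [eq_bot_iff]
    intro x hx
    rw [Submodule.mem_iInf] at hx
    rw [Submodule.mem_bot]
    have h0 := (mem_hyp _ _).1 (hx (Fin.castAdd _ 0))
    have h1 := (mem_hyp _ _).1 (hx (Fin.natAdd 6 (Fin.castAdd 12 0)))
    have h2 := (mem_hyp _ _).1 (hx (Fin.castAdd _ 1))
    simp only [cK, cvec, Fin.append_left, Fin.append_right] at h0 h1 h2
    simp at h0 h1 h2
    have ha := h.1 0 1 (by decide)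
    have ha' : ((a 0 : ℤ) : K) - ((a 1 : ℤ) : K) ≠ 0 := by exact_mod_cast ha
    have hx1 : x 1 = 0 := by
      have : (((a 0 : ℤ) : K) - ((a 1 : ℤ) : K)) * x 1 = 0 := by
        rw [h1] at h0 h2
        linear_combination h0 - h2
      exact (mul_eq_zero.1 this).resolve_left ha'
    have hx0 : x 0 = 0 := by
      rw [h1, hx1] at h0
      linear_combination h0
    funext t
    fin_cases t
    · exact hx0
    · exact hx1
    · exact h1

theorem form_eq (v : Fin 3 → K) : form v = C (v 0) * X 0 + C (v 1) * X 1 + C (v 2) * X 2 := by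
  rw [form, Fin.sum_univ_three]

theorem mem_Dlog {a b : Fin 6 → ℤ} {u v : Fin 12 → ℤ} (h : Cond a b u v) (θ : Fin 3 → S K) :
    θ ∈ Dlog (mkArr K h) ↔ (PData.ofInt K h).Mem θ := by
  show (∀ i, form (cK K a b u v i) ∣ ∑ t, C (cK K a b u v i t) * θ t) ↔ _
  have e1 : ∀ i : Fin 6, form (cK K a b u v (Fin.castAdd _ i)) =
      X 0 + (PData.ofInt K h).c i := by
    intro i
    rw [form_eq]
    simp only [cK, cvec, Fin.append_left, PData.c, PData.ofInt, ln]
    simp [add_assoc]
  have e2 : ∀ i : Fin 1, form (cK K a b u v (Fin.natAdd 6 (Fin.castAdd 12 i))) = X 2 := by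
    intro i
    rw [form_eq]
    simp only [cK, cvec, Fin.append_left, Fin.append_right]
    simp
  have e3 : ∀ s : Fin 12, form (cK K a b u v (Fin.natAdd 6 (Fin.natAdd 1 s))) =
      ln ((PData.ofInt K h).u s) ((PData.ofInt K h).v s) := by
    intro i
    rw [form_eq]
    simp only [cK, cvec, Fin.append_right, PData.ofInt, ln]
    simp
  have f1 : ∀ i : Fin 6, ∑ t, C (cK K a b u v (Fin.castAdd _ i) t) * θ t =
      θ 0 + C ((PData.ofInt K h).a i) * θ 1 + C ((PData.ofInt K h).b i) * θ 2 := by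
    intro i
    rw [Fin.sum_univ_three]
    simp only [cK, cvec, Fin.append_left, PData.ofInt]
    simp
  have f2 : ∀ i : Fin 1, ∑ t, C (cK K a b u v (Fin.natAdd 6 (Fin.castAdd 12 i)) t) * θ t =
      θ 2 := by
    intro i
    rw [Fin.sum_univ_three]
    simp only [cK, cvec, Fin.append_left, Fin.append_right]
    simp
  have f3 : ∀ s : Fin 12, ∑ t, C (cK K a b u v (Fin.natAdd 6 (Fin.natAdd 1 s)) t) * θ t =
      C ((PData.ofInt K h).u s) * θ 1 + C ((PData.ofInt K h).v s) * θ 2 := by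
    intro i
    rw [Fin.sum_univ_three]
    simp only [cK, cvec, Fin.append_right, PData.ofInt]
    simp
  constructor
  · intro H
    refine ⟨fun i => ?_, ?_, fun s => ?_⟩
    · rw [← e1, ← f1]; exact H _
    · rw [← e2 0, ← f2 0]; exact H _
    · rw [← e3, ← f3]; exact H _
  · rintro ⟨H1, H2, H3⟩ i
    refine Fin.addCases (fun i => ?_) (fun j => ?_) i
    · rw [e1, f1]; exact H1 i
    · refine Fin.addCases (fun i => ?_) (fun j => ?_) j
      · rw [e2, f2]; exact H2
      · rw [e3, f3]; exact H3 j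

/-- First example: the three points are collinear. -/
def aA : Fin 6 → ℤ := ![-4, -3, 2, 4, 1, 3]
def bA : Fin 6 → ℤ := ![0, 0, 2, 4, -1, -3]
/-- Second example: the three points are not collinear. -/
def aB : Fin 6 → ℤ := ![-4, -3, 2, 4, 3, 5]
def bB : Fin 6 → ℤ := ![0, 0, 2, 4, -1, -3]

/-- The covered pairs. -/
def p1 : Fin 12 → Fin 6 := ![0, 0, 0, 0, 1, 1, 1, 1, 2, 2, 3, 3]
def p2 : Fin 12 → Fin 6 := ![2, 3, 4, 5, 2, 3, 4, 5, 4, 5, 4, 5]

/-- The pencil. -/
def dif (a : Fin 6 → ℤ) : Fin 12 → ℤ := fun s => a (p1 s) - a (p2 s)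

theorem condA : Cond aA bA (dif aA) (dif bA) := by decide +kernel
theorem condB : Cond aB bB (dif aB) (dif bB) := by decide +kernel

theorem dets : ∀ i j l, det3 (cvec aA bA (dif aA) (dif bA) i) (cvec aA bA (dif aA) (dif bA) j)
    (cvec aA bA (dif aA) (dif bA) l) = 0 ↔
    det3 (cvec aB bB (dif aB) (dif bB) i) (cvec aB bB (dif aB) (dif bB) j)
    (cvec aB bB (dif aB) (dif bB) l) = 0 := by decide +kernel

theorem lattice_iso : Nonempty (flats (mkArr K condA) ≃o flats (mkArr K condB)) := by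
  refine flats_iso _ _ rfl (cross_cK condA) (cross_cK condB) ?_
  intro i j l
  have h1 := det3_cast (K := K) (cvec aA bA (dif aA) (dif bA) i) (cvec aA bA (dif aA) (dif bA) j)
    (cvec aA bA (dif aA) (dif bA) l)
  have h2 := det3_cast (K := K) (cvec aB bB (dif aB) (dif bB) i) (cvec aB bB (dif aB) (dif bB) j)
    (cvec aB bB (dif aB) (dif bB) l)
  have e1 : det3 ((mkArr K condA).c i) ((mkArr K condA).c j) ((mkArr K condA).c l) =
    ((det3 (cvec aA bA (dif aA) (dif bA) i) (cvec aA bA (dif aA) (dif bA) j)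
    (cvec aA bA (dif aA) (dif bA) l) : ℤ) : K) := h1
  have e2 : det3 ((mkArr K condB).c i) ((mkArr K condB).c j) ((mkArr K condB).c l) =
    ((det3 (cvec aB bB (dif aB) (dif bB) i) (cvec aB bB (dif aB) (dif bB) j)
    (cvec aB bB (dif aB) (dif bB) l) : ℤ) : K) := h2
  show det3 ((mkArr K condA).c i) ((mkArr K condA).c j) ((mkArr K condA).c l) = 0 ↔
    det3 ((mkArr K condB).c i) ((mkArr K condB).c j) ((mkArr K condB).c l) = 0
  rw [e1, e2, Int.cast_eq_zero, Int.cast_eq_zero]
  exact dets i j l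

end H24POG
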