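import Mathlib

/-!
# Arrangements of hyperplanes, logarithmic derivations, plus-one generated arrangements

`Arr K ℓ`: an essential arrangement of finitely many pairwise distinct linear hyperplanes in `K^ℓ`;
`flats A`: the intersection lattice `L(A)`, as a set of subspaces ordered by inclusion (an order
isomorphism for inclusion is the same as one for reverse inclusion);
`Dlog A`: the module `D(A)` of logarithmic derivations, a submodule of `S^ℓ = Der S`
(`θ` stands for the derivation `∑ θ_t ∂/∂x_t`);
`IsPOG A e d`: `A` is plus-one generated with exponents `e` and level `d`;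
`IsStrictPOG A e d`: `A` is strictly plus-one generated with exponents `e` and level `d`.
-/

open MvPolynomial

universe u

namespace H24POG

variable {K : Type u} [Field K] {ℓ : ℕ}

/-- The hyperplane `∑ v_t x_t = 0` of `K^ℓ`. -/
def hyp (v : Fin ℓ → K) : Submodule K (Fin ℓ → K) where
  carrier := {x | ∑ t, v t * x t = 0}
  zero_mem' := by simp
  add_mem' := by
    intro x y hx hy
    have h : ∑ t, v t * (x + y) t = (∑ t, v t * x t) + ∑ t, v t * y t := by
      rw [← Finset.sum_add_distrib]
      exact Finset.sum_congr rfl fun t _ => by rw [Pi.add_apply, mul_add]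
    show ∑ t, v t * (x + y) t = 0
    rw [h, show ∑ t, v t * x t = 0 from hx, show ∑ t, v t * y t = 0 from hy, add_zero]
  smul_mem' := by
    intro r x hx
    have h : ∑ t, v t * (r • x) t = r * ∑ t, v t * x t := by
      rw [Finset.mul_sum]
      exact Finset.sum_congr rfl fun t _ => by rw [Pi.smul_apply, smul_eq_mul]; ring
    show ∑ t, v t * (r • x) t = 0
    rw [h, show ∑ t, v t * x t = 0 from hx, mul_zero]

/-- The linear form `∑ v_t X_t`. -/
noncomputable def form (v : Fin ℓ → K) : MvPolynomial (Fin ℓ) K := ∑ t, C (v t) * X t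

/-- An essential arrangement of `n` pairwise distinct linear hyperplanes in `K^ℓ`; the `i`-th
hyperplane is `∑ t, c i t * x_t = 0`. -/
structure Arr (K : Type u) [Field K] (ℓ : ℕ) where
  n : ℕ
  c : Fin n → Fin ℓ → K
  ne_zero : ∀ i, c i ≠ 0
  distinct : Function.Injective fun i => hyp (c i)
  essential : ⨅ i, hyp (c i) = ⊥

/-- The intersection lattice: all intersections of subfamilies of `A` (including the whole
space). -/
def flats (A : Arr K ℓ) : Set (Submodule K (Fin ℓ → K)) :=
  {W | ∃ T : Set (Fin A.n), W = ⨅ i ∈ T, hyp (A.c i)}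

/-- The module `D(A)` of logarithmic derivations: all `θ = ∑ θ_t ∂/∂x_t` such that `θ(α_H)` is
divisible by `α_H` for every `H ∈ A`. -/
noncomputable def Dlog (A : Arr K ℓ) :
    Submodule (MvPolynomial (Fin ℓ) K) (Fin ℓ → MvPolynomial (Fin ℓ) K) where
  carrier := {θ | ∀ i, form (A.c i) ∣ ∑ t, C (A.c i t) * θ t}
  zero_mem' := by intro i; simp
  add_mem' := by
    intro x y hx hy i
    have h : ∑ t, C (A.c i t) * (x + y) t =
        (∑ t, C (A.c i t) * x t) + ∑ t, C (A.c i t) * y t := by
      rw [← Finset.sum_add_distrib]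
      exact Finset.sum_congr rfl fun t _ => by rw [Pi.add_apply, mul_add]
    rw [h]
    exact dvd_add (hx i) (hy i)
  smul_mem' := by
    intro r x hx i
    have h : ∑ t, C (A.c i t) * (r • x) t = r * ∑ t, C (A.c i t) * x t := by
      rw [Finset.mul_sum]
      exact Finset.sum_congr rfl fun t _ => by rw [Pi.smul_apply, smul_eq_mul]; ring
    rw [h]
    exact Dvd.dvd.mul_left (hx i) r

/-- A minimal graded free resolution
`0 → S[-d-1] → S[-d] ⊕ ⨁ S[-e i] → M → 0` of a submodule `M` of `Der S = S^ℓ`, given by homogeneous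
generators `φ` (degree `d`) and `θ i` (degree `e i`) and by the entries `α` (degree `1`) and `f i`
(degree `d + 1 - e i`) of the first map; minimality means that no entry has a constant term. -/
structure Resolution (M : Submodule (MvPolynomial (Fin ℓ) K) (Fin ℓ → MvPolynomial (Fin ℓ) K))
    (e : Fin ℓ → ℕ) (d : ℕ) where
  θ : Fin ℓ → (Fin ℓ → MvPolynomial (Fin ℓ) K)
  φ : Fin ℓ → MvPolynomial (Fin ℓ) K
  α : MvPolynomial (Fin ℓ) K
  f : Fin ℓ → MvPolynomial (Fin ℓ) K
  θ_hom : ∀ i t, (θ i t).IsHomogeneous (e i)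
  φ_hom : ∀ t, (φ t).IsHomogeneous d
  α_hom : α.IsHomogeneous 1
  f_hom : ∀ i, f i = 0 ∨ ∃ m, m + e i = d + 1 ∧ (f i).IsHomogeneous m
  minimal : ∀ i, constantCoeff (f i) = 0
  span : Submodule.span (MvPolynomial (Fin ℓ) K) (insert φ (Set.range θ)) = M
  injective : ¬ (α = 0 ∧ ∀ i, f i = 0)
  exact : ∀ (a : MvPolynomial (Fin ℓ) K) (g : Fin ℓ → MvPolynomial (Fin ℓ) K),
    a • φ + ∑ i, g i • θ i = 0 ↔ ∃ h, a = h * α ∧ ∀ i, g i = h * f i

/-- `A` is plus-one generated with exponents `e` and level `d`. -/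
def IsPOG (A : Arr K ℓ) (e : Fin ℓ → ℕ) (d : ℕ) : Prop :=
  Nonempty (Resolution (Dlog A) e d)

/-- `A` is strictly plus-one generated with exponents `e` and level `d`. -/
def IsStrictPOG (A : Arr K ℓ) (e : Fin ℓ → ℕ) (d : ℕ) : Prop :=
  ∃ P : Resolution (Dlog A) e d, P.α ≠ 0

end H24POG
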