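import Pool.Agent.H24.POG.Defs

/-!
# Polynomials in three variables: substitution `X 0 ↦ -c`, relative primality, interpolation
-/

open MvPolynomial

universe u

namespace H24POG

variable {K : Type u} [Field K]

/-- Polynomials in three variables. -/
abbrev S (K : Type u) [Field K] : Type u := MvPolynomial (Fin 3) K

/-- The linear form `a X₁ + b X₂`. -/
noncomputable def ln (a b : K) : S K := C a * X 1 + C b * X 2

/-- The substitution `X₀ ↦ -c`. -/
noncomputable def ev (c : S K) : S K →ₐ[K] S K := aeval ![-c, X 1, X 2]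

theorem ev_X0 (c : S K) : ev c (X 0) = -c := by simp [ev]
theorem ev_X1 (c : S K) : ev c (X 1) = X 1 := by simp [ev]
theorem ev_X2 (c : S K) : ev c (X 2) = X 2 := by simp [ev]
theorem ev_C (c : S K) (r : K) : ev c (C r) = C r := by
  rw [← algebraMap_eq]; exact (ev c).commutes r

theorem ev_ln (c : S K) (a b : K) : ev c (ln a b) = ln a b := by
  rw [ln, map_add, map_mul, map_mul, ev_C, ev_C, ev_X1, ev_X2]

/-- Two substitutions agree modulo `r` if they do so on the variables. -/
theorem hom_sub_dvd (φ ψ : S K →ₐ[K] S K) (r : S K) (h : ∀ i, r ∣ φ (X i) - ψ (X i)) (p : S K) :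
    r ∣ φ p - ψ p := by
  rw [← Ideal.mem_span_singleton, ← Ideal.Quotient.eq]
  have h1 : ((Ideal.Quotient.mkₐ K (Ideal.span {r})).comp φ) =
      ((Ideal.Quotient.mkₐ K (Ideal.span {r})).comp ψ) := by
    apply MvPolynomial.algHom_ext
    intro i
    show Ideal.Quotient.mk _ (φ (X i)) = Ideal.Quotient.mk _ (ψ (X i))
    rw [Ideal.Quotient.eq, Ideal.mem_span_singleton]
    exact h i
  exact DFunLike.congr_fun h1 p

theorem ev_sub_dvd (c c' p : S K) : c - c' ∣ ev c p - ev c' p := by
  apply hom_sub_dvd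
  intro i
  fin_cases i
  · show c - c' ∣ ev c (X 0) - ev c' (X 0)
    rw [ev_X0, ev_X0]
    exact ⟨-1, by ring⟩
  · show c - c' ∣ ev c (X 1) - ev c' (X 1)
    rw [ev_X1, ev_X1, sub_self]
    exact dvd_zero _
  · show c - c' ∣ ev c (X 2) - ev c' (X 2)
    rw [ev_X2, ev_X2, sub_self]
    exact dvd_zero _

theorem sub_ev_dvd (c p : S K) : X 0 + c ∣ p - ev c p := by
  have := hom_sub_dvd (AlgHom.id K (S K)) (ev c) (X 0 + c) (by
    intro i
    fin_cases i
    · show X 0 + c ∣ X 0 - ev c (X 0)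
      rw [ev_X0]
      exact ⟨1, by ring⟩
    · show X 0 + c ∣ X 1 - ev c (X 1)
      rw [ev_X1, sub_self]
      exact dvd_zero _
    · show X 0 + c ∣ X 2 - ev c (X 2)
      rw [ev_X2, sub_self]
      exact dvd_zero _) p
  exact this

theorem L_dvd_iff (a b : K) (p : S K) : X 0 + ln a b ∣ p ↔ ev (ln a b) p = 0 := by
  constructor
  · rintro ⟨q, rfl⟩
    rw [map_mul, map_add, ev_X0, ev_ln, neg_add_cancel, zero_mul]
  · intro h
    have := sub_ev_dvd (ln a b) p
    rwa [h, sub_zero] at this

theorem eval_ln (a b : K) (x : Fin 3 → K) : eval x (ln a b) = a * x 1 + b * x 2 := by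
  simp [ln]

theorem ln_ne_zero {a b : K} (h : a ≠ 0 ∨ b ≠ 0) : ln a b ≠ 0 := by
  intro h0
  have h1 := eval_ln a b ![0, 1, 0]
  have h2 := eval_ln a b ![0, 0, 1]
  rw [h0, map_zero] at h1 h2
  simp at h1 h2
  rcases h with h | h
  · exact h h1.symm
  · exact h h2.symm

theorem ln_sub (a b a' b' : K) : ln a b - ln a' b' = ln (a - a') (b - b') := by
  simp only [ln, C_sub]; ring

theorem ln_smul (r a b : K) : C r * ln a b = ln (r * a) (r * b) := by
  simp only [ln, C_mul]; ring

theorem X0_add_ln_prime (a b : K) : Prime (X 0 + ln a b : S K) := by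
  refine ⟨?_, ?_, ?_⟩
  · intro h
    have h1 := congrArg (ev (ln (a + 1) b)) h
    rw [map_add, ev_X0, ev_ln, map_zero, neg_add_eq_sub, ln_sub] at h1
    exact ln_ne_zero (Or.inl (by simp)) h1
  · intro h
    have h1 := h.map (ev (ln a b))
    rw [map_add, ev_X0, ev_ln, neg_add_cancel] at h1
    exact not_isUnit_zero h1
  · intro p q h
    rw [L_dvd_iff, map_mul, mul_eq_zero] at h
    rw [L_dvd_iff, L_dvd_iff]
    exact h

theorem L_relPrime {a b a' b' : K} (h : a ≠ a' ∨ b ≠ b') :
    IsRelPrime (X 0 + ln a b : S K) (X 0 + ln a' b') := by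
  rw [(X0_add_ln_prime a b).irreducible.isRelPrime_iff_not_dvd, L_dvd_iff, map_add, ev_X0, ev_ln,
    neg_add_eq_sub, ln_sub]
  apply ln_ne_zero
  rcases h with h | h
  · exact Or.inl (sub_ne_zero.2 h.symm)
  · exact Or.inr (sub_ne_zero.2 h.symm)

theorem ln_relPrime {a b a' b' : K} (h : a * b' - b * a' ≠ 0) :
    IsRelPrime (ln a b) (ln a' b') := by
  intro d h1 h2
  have h3 : d ∣ C (a * b' - b * a') * (X 1 : S K) := by
    have : C (a * b' - b * a') * (X 1 : S K) = C b' * ln a b - C b * ln a' b' := by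
      simp only [ln, C_sub, C_mul]; ring
    rw [this]
    exact dvd_sub (Dvd.dvd.mul_left h1 _) (Dvd.dvd.mul_left h2 _)
  have h4 : d ∣ C (a * b' - b * a') * (X 2 : S K) := by
    have : C (a * b' - b * a') * (X 2 : S K) = C a * ln a' b' - C a' * ln a b := by
      simp only [ln, C_sub, C_mul]; ring
    rw [this]
    exact dvd_sub (Dvd.dvd.mul_left h2 _) (Dvd.dvd.mul_left h1 _)
  have hu : IsUnit (C (a * b' - b * a') : S K) := (isUnit_iff_ne_zero.2 h).map C
  have h5 : d ∣ X 1 := (hu.dvd_mul_left).1 h3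
  have h6 : d ∣ X 2 := (hu.dvd_mul_left).1 h4
  have h7 : IsRelPrime (X 1 : S K) (X 2) := by
    rw [(X_prime (σ := Fin 3) (R := K) (i := 1)).irreducible.isRelPrime_iff_not_dvd, X_dvd_X]
    decide
  exact h7 h5 h6

/-- A polynomial not involving `X₀`. -/
def ZF (p : S K) : Prop := ∀ c, ev c p = p

theorem ZF.ln (a b : K) : ZF (ln a b) := fun c => ev_ln c a b
theorem ZF.C (r : K) : ZF (C r : S K) := fun c => ev_C c r
theorem ZF.mul {p q : S K} (hp : ZF p) (hq : ZF q) : ZF (p * q) := fun c => by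
  rw [map_mul, hp, hq]
theorem ZF.sub {p q : S K} (hp : ZF p) (hq : ZF q) : ZF (p - q) := fun c => by
  rw [map_sub, hp, hq]
theorem ZF.neg {p : S K} (hp : ZF p) : ZF (-p) := fun c => by rw [map_neg, hp]
theorem ZF.prod {ι : Type*} {s : Finset ι} {p : ι → S K} (hp : ∀ i ∈ s, ZF (p i)) :
    ZF (∏ i ∈ s, p i) := fun c => by
  rw [map_prod]
  exact Finset.prod_congr rfl fun i hi => hp i hi c
theorem ZF.ev {c : S K} (p : S K) (hc : ZF c) : ZF (ev c p) := by
  intro c'
  have h : (H24POG.ev c').comp (H24POG.ev c) = H24POG.ev c := by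
    apply MvPolynomial.algHom_ext
    intro i
    rw [AlgHom.comp_apply]
    fin_cases i
    · show H24POG.ev c' (H24POG.ev c (X 0)) = H24POG.ev c (X 0)
      rw [ev_X0, map_neg, hc]
    · show H24POG.ev c' (H24POG.ev c (X 1)) = H24POG.ev c (X 1)
      rw [ev_X1, ev_X1]
    · show H24POG.ev c' (H24POG.ev c (X 2)) = H24POG.ev c (X 2)
      rw [ev_X2, ev_X2]
  exact DFunLike.congr_fun h p

/-- Interpolation. -/
theorem interp {ι : Type*} [DecidableEq ι] (s : Finset ι) (a b : ι → K) (v : ι → S K)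
    (hv : ∀ i ∈ s, ZF (v i))
    (h1 : ∀ i ∈ s, ∀ j ∈ s, i ≠ j → ln (a i) (b i) - ln (a j) (b j) ∣ v i - v j)
    (h2 : ∀ i ∈ s, ∀ j ∈ s, ∀ l ∈ s, i ≠ j → i ≠ l → j ≠ l →
      (a i - a j) * (b i - b l) - (b i - b j) * (a i - a l) ≠ 0) :
    ∃ h : S K, ∀ i ∈ s, ev (ln (a i) (b i)) h = v i := by
  induction s using Finset.induction_on with
  | empty => exact ⟨0, by simp⟩
  | insert i s hi ih =>
    obtain ⟨h, hh⟩ := ih (fun j hj => hv j (Finset.mem_insert_of_mem hj))
      (fun j hj l hl => h1 j (Finset.mem_insert_of_mem hj) l (Finset.mem_insert_of_mem hl))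
      (fun j hj l hl m hm => h2 j (Finset.mem_insert_of_mem hj) l (Finset.mem_insert_of_mem hl) m
        (Finset.mem_insert_of_mem hm))
    have hii := Finset.mem_insert_self i s
    have hdvd : ∏ j ∈ s, (ln (a i) (b i) - ln (a j) (b j)) ∣ v i - ev (ln (a i) (b i)) h := by
      apply Finset.prod_dvd_of_isRelPrime
      · intro j hj l hl hjl
        have hj' := Finset.mem_insert_of_mem (b := i) (Finset.mem_coe.1 hj)
        have hl' := Finset.mem_insert_of_mem (b := i) (Finset.mem_coe.1 hl)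
        have hij : i ≠ j := by rintro rfl; exact hi (Finset.mem_coe.1 hj)
        have hil : i ≠ l := by rintro rfl; exact hi (Finset.mem_coe.1 hl)
        show IsRelPrime (ln (a i) (b i) - ln (a j) (b j)) (ln (a i) (b i) - ln (a l) (b l))
        rw [ln_sub, ln_sub]
        exact ln_relPrime (h2 i hii j hj' l hl' hij hil hjl)
      · intro j hj
        have hj' := Finset.mem_insert_of_mem (b := i) hj
        have hij : i ≠ j := by rintro rfl; exact hi hj
        have e1 : v i - ev (ln (a i) (b i)) h = (v i - v j) -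
            (ev (ln (a i) (b i)) h - ev (ln (a j) (b j)) h) := by
          rw [hh j hj]; ring
        rw [e1]
        exact dvd_sub (h1 i hii j hj' hij) (ev_sub_dvd _ _ _)
    obtain ⟨w, hw⟩ := hdvd
    refine ⟨h + (∏ j ∈ s, (X 0 + ln (a j) (b j))) * (∏ j ∈ s, (-1 : S K)) * w, ?_⟩
    intro j hj
    rw [map_add, map_mul, map_mul, map_prod]
    rcases Finset.mem_insert.1 hj with rfl | hj
    · have e2 : ∏ l ∈ s, ev (ln (a j) (b j)) (X 0 + ln (a l) (b l)) =
          (∏ l ∈ s, (ln (a j) (b j) - ln (a l) (b l))) * ∏ l ∈ s, (-1 : S K) := by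
        rw [← Finset.prod_mul_distrib]
        refine Finset.prod_congr rfl fun l _ => ?_
        rw [map_add, ev_X0, ev_ln]; ring
      have e3 : ev (ln (a j) (b j)) (∏ l ∈ s, (-1 : S K)) = ∏ l ∈ s, (-1 : S K) := by
        rw [map_prod]; refine Finset.prod_congr rfl fun l _ => ?_
        rw [map_neg, map_one]
      have e4 : (∏ l ∈ s, (-1 : S K)) * (∏ l ∈ s, (-1 : S K)) = 1 := by
        rw [← Finset.prod_mul_distrib]
        exact Finset.prod_eq_one fun l _ => by ring
      have e5 : v j - ev (ln (a j) (b j)) h =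
          (∏ l ∈ s, (ln (a j) (b j) - ln (a l) (b l))) * ev (ln (a j) (b j)) w := by
        have := congrArg (ev (ln (a j) (b j))) hw
        rw [map_sub, map_mul, hv j hii, (ZF.ev h (ZF.ln _ _)) _, (ZF.prod (fun l _ =>
          (ZF.ln _ _).sub (ZF.ln _ _)) : ZF (∏ l ∈ s, (ln (a j) (b j) - ln (a l) (b l))))] at this
        exact this
      rw [e2, e3]
      calc _ = ev (ln (a j) (b j)) h + (∏ l ∈ s, (ln (a j) (b j) - ln (a l) (b l))) *
          ev (ln (a j) (b j)) w * ((∏ l ∈ s, (-1 : S K)) * (∏ l ∈ s, (-1 : S K))) := by ring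
        _ = v j := by rw [e4, mul_one, ← e5]; ring
    · have e2 : ∏ l ∈ s, ev (ln (a j) (b j)) (X 0 + ln (a l) (b l)) = 0 :=
        Finset.prod_eq_zero hj (by rw [map_add, ev_X0, ev_ln, neg_add_cancel])
      rw [e2, hh j hj]; ring

/-- Multiplication by a homogeneous polynomial and homogeneous components. -/
theorem comp_mul {σ : Type*} {R p : MvPolynomial σ K} {k : ℕ} (hR : R.IsHomogeneous k) (n : ℕ) :
    homogeneousComponent (n + k) (R * p) = R * homogeneousComponent n p := by
  conv_lhs => rw [← sum_homogeneousComponent p, Finset.mul_sum, map_sum]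
  have h1 : ∀ i, homogeneousComponent (n + k) (R * homogeneousComponent i p) =
      if i = n then R * homogeneousComponent n p else 0 := by
    intro i
    have h2 : (R * homogeneousComponent i p).IsHomogeneous (k + i) :=
      hR.mul (homogeneousComponent_isHomogeneous i p)
    rw [homogeneousComponent_of_mem ((mem_homogeneousSubmodule _ _).2 h2)]
    by_cases h : i = n
    · subst h
      rw [if_pos (by omega), if_pos rfl]
    · rw [if_neg (by omega), if_neg h]
  rw [Finset.sum_congr rfl fun i _ => h1 i, Finset.sum_ite_eq']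
  split_ifs with h
  · rfl
  · rw [Finset.mem_range, not_lt] at h
    rw [homogeneousComponent_eq_zero n p (by omega), mul_zero]

end H24POG
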