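import Pool.Agent.H24.POG.Poly

/-!
# The derivations of a pencil together with six lines
-/

open MvPolynomial

universe u

namespace H24POG

variable {K : Type u} [Field K]

/-- The pairs of lines whose intersection is on no line of the pencil. -/
def Unc (i j : Fin 6) : Prop := (i : ℕ) / 2 = (j : ℕ) / 2

instance (i j : Fin 6) : Decidable (Unc i j) := inferInstanceAs (Decidable (_ = _))

/-- Six lines `X₀ + a i X₁ + b i X₂`, the line `X₂` and twelve lines `u s X₁ + v s X₂`. -/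
structure PData (K : Type u) [Field K] where
  a : Fin 6 → K
  b : Fin 6 → K
  u : Fin 12 → K
  v : Fin 12 → K
  a_ne : ∀ i j, i ≠ j → a i - a j ≠ 0
  u_ne : ∀ s, u s ≠ 0
  uv : ∀ s t, s ≠ t → u s * v t - v s * u t ≠ 0
  tri : ∀ i j l, i ≠ j → i ≠ l → j ≠ l →
    (a i - a j) * (b i - b l) - (b i - b j) * (a i - a l) ≠ 0
  cov : ∀ i j, ¬ Unc i j → ∃ s r, a i - a j = r * u s ∧ b i - b j = r * v s
  unc_ne : ∀ i j, i ≠ j → Unc i j → ∀ s, (a i - a j) * v s - (b i - b j) * u s ≠ 0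

namespace PData
variable (P : PData K)

/-- The linear form of a line. -/
noncomputable def c (i : Fin 6) : S K := ln (P.a i) (P.b i)

/-- Product of the twelve forms. -/
noncomputable def Q : S K := ∏ s, ln (P.u s) (P.v s)

/-- Product of the six forms. -/
noncomputable def R : S K := ∏ i, (X 0 + P.c i)

theorem Q_ZF : ZF P.Q := ZF.prod fun _ _ => ZF.ln _ _

theorem Q_ne : P.Q ≠ 0 := Finset.prod_ne_zero_iff.2 fun s _ => ln_ne_zero (Or.inl (P.u_ne s))

theorem R_ne : P.R ≠ 0 := Finset.prod_ne_zero_iff.2 fun i _ => (X0_add_ln_prime _ _).ne_zero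

theorem c_sub (i j : Fin 6) : P.c i - P.c j = ln (P.a i - P.a j) (P.b i - P.b j) := ln_sub _ _ _ _

/-- The conditions for a logarithmic derivation. -/
def Mem (θ : Fin 3 → S K) : Prop :=
  (∀ i, X 0 + P.c i ∣ θ 0 + C (P.a i) * θ 1 + C (P.b i) * θ 2) ∧ X 2 ∣ θ 2 ∧
    ∀ s, ln (P.u s) (P.v s) ∣ C (P.u s) * θ 1 + C (P.v s) * θ 2

/-- The reduced conditions. -/
def N (p w : S K) : Prop := ∀ i, X 0 + P.c i ∣ w + C (P.a i) * (P.Q * p)

theorem N.add {P : PData K} {p w p' w' : S K} (h : P.N p w) (h' : P.N p' w') :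
    P.N (p + p') (w + w') := fun i => by
  have e : w + w' + C (P.a i) * (P.Q * (p + p')) =
    (w + C (P.a i) * (P.Q * p)) + (w' + C (P.a i) * (P.Q * p')) := by ring
  rw [e]; exact dvd_add (h i) (h' i)

theorem N.mul {P : PData K} {p w : S K} (h : P.N p w) (q : S K) : P.N (q * p) (q * w) := fun i => by
  have e : q * w + C (P.a i) * (P.Q * (q * p)) = q * (w + C (P.a i) * (P.Q * p)) := by ring
  rw [e]; exact Dvd.dvd.mul_left (h i) q

theorem N.sub {P : PData K} {p w p' w' : S K} (h : P.N p w) (h' : P.N p' w') :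
    P.N (p - p') (w - w') := fun i => by
  have e : w - w' + C (P.a i) * (P.Q * (p - p')) =
    (w + C (P.a i) * (P.Q * p)) - (w' + C (P.a i) * (P.Q * p')) := by ring
  rw [e]; exact dvd_sub (h i) (h' i)

theorem mem_iff (θ : Fin 3 → S K) : P.Mem θ ↔ ∃ g p w, θ 0 = X 0 * g + w ∧
    θ 1 = X 1 * g + P.Q * p ∧ θ 2 = X 2 * g ∧ P.N p w := by
  constructor
  · rintro ⟨h1, ⟨g, hg⟩, h3⟩
    have hQ : P.Q ∣ θ 1 - X 1 * g := by
      apply Finset.prod_dvd_of_isRelPrime
      · intro s _ t _ hst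
        exact ln_relPrime (P.uv s t hst)
      · intro s _
        have hu : IsUnit (C (P.u s) : S K) := (isUnit_iff_ne_zero.2 (P.u_ne s)).map C
        rw [← hu.dvd_mul_left]
        have e : C (P.u s) * (θ 1 - X 1 * g) = (C (P.u s) * θ 1 + C (P.v s) * θ 2) -
            ln (P.u s) (P.v s) * g := by
          rw [hg, ln]; ring
        rw [e]
        exact dvd_sub (h3 s) (Dvd.intro _ rfl)
    obtain ⟨p, hp⟩ := hQ
    refine ⟨g, p, θ 0 - X 0 * g, by ring, by rw [← hp]; ring, hg, fun i => ?_⟩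
    have e : θ 0 - X 0 * g + C (P.a i) * (P.Q * p) =
        (θ 0 + C (P.a i) * θ 1 + C (P.b i) * θ 2) - (X 0 + P.c i) * g := by
      rw [← hp, hg, c, ln]; ring
    rw [e]
    exact dvd_sub (h1 i) (Dvd.intro _ rfl)
  · rintro ⟨g, p, w, h0, h1, h2, hN⟩
    refine ⟨fun i => ?_, ⟨g, h2⟩, fun s => ?_⟩
    · have e : θ 0 + C (P.a i) * θ 1 + C (P.b i) * θ 2 = (w + C (P.a i) * (P.Q * p)) +
          (X 0 + P.c i) * g := by
        rw [h0, h1, h2, c, ln]; ring
      rw [e]
      exact dvd_add (hN i) (Dvd.intro _ rfl)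
    · have e : C (P.u s) * θ 1 + C (P.v s) * θ 2 = ln (P.u s) (P.v s) * g +
          C (P.u s) * p * P.Q := by
        rw [h1, h2, ln]; ring
      rw [e]
      exact dvd_add (Dvd.intro _ rfl)
        (Dvd.dvd.mul_left (Finset.dvd_prod_of_mem _ (Finset.mem_univ s)) _)

theorem N_iff (p w : S K) : P.N p w ↔ ∀ i, ev (P.c i) w = -(C (P.a i) * (P.Q * ev (P.c i) p)) := by
  refine forall_congr' fun i => ?_
  show X 0 + ln _ _ ∣ _ ↔ _
  rw [L_dvd_iff, map_add, map_mul, map_mul, ev_C, P.Q_ZF, add_eq_zero_iff_eq_neg]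
  rfl

theorem N_zero {w : S K} (h : P.N 0 w) : P.R ∣ w := by
  apply Finset.prod_dvd_of_isRelPrime
  · intro i _ j _ hij
    exact L_relPrime (Or.inl (sub_ne_zero.1 (P.a_ne i j hij)))
  · intro i _
    have := h i
    rwa [mul_zero, mul_zero, add_zero] at this

theorem N_unc {p w : S K} (h : P.N p w) {i j : Fin 6} (hij : i ≠ j) (hu : Unc i j) :
    P.c i - P.c j ∣ ev (P.c j) p := by
  rw [N_iff] at h
  have h1 := h i
  have h2 := h j
  have d1 : P.c i - P.c j ∣ ev (P.c i) w - ev (P.c j) w := ev_sub_dvd _ _ _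
  have d2 : P.c i - P.c j ∣ ev (P.c i) p - ev (P.c j) p := ev_sub_dvd _ _ _
  have d3 : P.c i - P.c j ∣ C (P.a i - P.a j) * (P.Q * ev (P.c j) p) := by
    have e : C (P.a i - P.a j) * (P.Q * ev (P.c j) p) =
        -(ev (P.c i) w - ev (P.c j) w) - (ev (P.c i) p - ev (P.c j) p) *
          (C (P.a i) * P.Q) := by
      rw [h1, h2, C_sub]; ring
    rw [e]
    exact dvd_sub (d1.neg_right) (Dvd.dvd.mul_right d2 _)
  have hun : IsUnit (C (P.a i - P.a j) : S K) := (isUnit_iff_ne_zero.2 (P.a_ne i j hij)).map C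
  rw [hun.dvd_mul_left] at d3
  refine IsRelPrime.dvd_of_dvd_mul_left ?_ d3
  apply IsRelPrime.prod_right
  intro s _
  rw [c_sub]
  exact ln_relPrime (P.unc_ne i j hij hu s)

theorem N_lift (p : S K) (h : ∀ i j, i ≠ j → Unc i j → P.c i - P.c j ∣ ev (P.c j) p) :
    ∃ w, P.N p w := by
  obtain ⟨w, hw⟩ := interp (Finset.univ : Finset (Fin 6)) P.a P.b
    (fun i => -(C (P.a i) * (P.Q * ev (P.c i) p)))
    (fun i _ => ((ZF.C _).mul (P.Q_ZF.mul (ZF.ev p (ZF.ln _ _)))).neg)
    (by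
      intro i _ j _ hij
      show P.c i - P.c j ∣ _
      have d2 : P.c i - P.c j ∣ ev (P.c i) p - ev (P.c j) p := ev_sub_dvd _ _ _
      have d3 : P.c i - P.c j ∣ P.Q * ev (P.c j) p := by
        by_cases hu : Unc i j
        · exact Dvd.dvd.mul_left (h i j hij hu) _
        · obtain ⟨s, r, h1, h2⟩ := P.cov i j hu
          apply Dvd.dvd.mul_right
          rw [c_sub, h1, h2, ← ln_smul]
          have hr : r ≠ 0 := by
            rintro rfl
            exact P.a_ne i j hij (by rw [h1, zero_mul])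
          have hun : IsUnit (C r : S K) := (isUnit_iff_ne_zero.2 hr).map C
          rw [hun.mul_left_dvd]
          exact Finset.dvd_prod_of_mem _ (Finset.mem_univ s)
      have e : -(C (P.a i) * (P.Q * ev (P.c i) p)) - -(C (P.a j) * (P.Q * ev (P.c j) p)) =
          -((ev (P.c i) p - ev (P.c j) p) * (C (P.a i) * P.Q)) -
            C (P.a i - P.a j) * (P.Q * ev (P.c j) p) := by
        rw [C_sub]; ring
      rw [e]
      exact dvd_sub (Dvd.dvd.mul_right d2 _).neg_right (Dvd.dvd.mul_left d3 _))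
    (by
      intro i _ j _ l _ h1 h2 h3
      exact P.tri i j l h1 h2 h3)
  exact ⟨w, (P.N_iff p w).2 fun i => hw i (Finset.mem_univ i)⟩

end PData
end H24POG
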